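import Pool.Agent.Helper683.K9.Start

set_option maxRecDepth 10000000
set_option maxHeartbeats 4000000

namespace Pool.Agent.Helper683.K9

variable {W : ℕ → ℕ} {kS : ℕ → ℕ}

theorem certB (H : Hyp W tS tF tab b1 bF kS) : ¬ Sat W (asg full 0 kB) := by
  refine (run_sound H 5000 (by norm_num) 0x8c180b2612c44c5919fd2852111656ea23189c180b2311445364a2dc128204b197c2257ab4448c451d8c2211007c180b050180a0409084404622834351c4386d141e532fd1a1207084404c2583696945b879061e632fc1ab0568351a8a3b18042200f830160a030140836030148c4518c84d8a35ba0128c6190180a4c258c660945b80d0203632f462ae568c5168a3b18842200f830160a03014096c4d1dcc659219088240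
    _ [] [] ?_
    (by decide +kernel)).1
  simp

end Pool.Agent.Helper683.K9
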