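import Mathlib

/-! A propagation checker for finite tables, written with recursors so that the kernel runs it fast.
A state `D` packs for every variable `v < 840` three bits at `3 v + 20`: which of the values
`0, 1, 2` are still allowed.  The bits below `20` carry no information. -/

namespace Pool.Agent.Helper683.K9

structure P4 where
  pk : Nat
  m0 : Nat
  m1 : Nat
  m2 : Nat

def P4.m (p : P4) (b : Nat) : Nat := match b with | 0 => p.m0 | 1 => p.m1 | _ => p.m2

inductive Tr where
  | leaf (v : List Nat) : Tr
  | node (l r : Tr) : Tr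

noncomputable def Tr.look (t : Tr) : Nat → List Nat :=
  Tr.rec (motive := fun _ => Nat → List Nat) (fun v _ => v)
    (fun _ _ fl fr n => Bool.rec (fr (Nat.shiftRight n 1)) (fl (Nat.shiftRight n 1))
      (Nat.beq (Nat.land n 1) 0)) t

noncomputable def getL (n D : Nat) (os : List Nat) (ps : List P4) (L : Nat) : Nat :=
  List.rec (motive := fun _ => List P4 → Nat → Nat) (fun _ L => L)
    (fun o _ ih ps L => List.rec (motive := fun _ => Nat) L
      (fun p ps' _ => P4.rec (motive := fun _ => Nat) (fun pk _ _ _ =>
        ih ps' (Nat.land L (Nat.shiftRight pk (Nat.mul (Nat.land (Nat.shiftRight D o) 7) n)))) p) ps)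
    os ps L

/-- mask of values to remove -/
noncomputable def remv (D L : Nat) (os : List Nat) (ps : List P4) (N : Nat) : Nat :=
  List.rec (motive := fun _ => List P4 → Nat → Nat) (fun _ N => N)
    (fun o _ ih ps N => List.rec (motive := fun _ => Nat) N
      (fun p ps' _ => P4.rec (motive := fun _ => Nat) (fun _ m0 m1 m2 =>
        Bool.rec (motive := fun _ => Nat)
          (ih ps' (Nat.lor N (Nat.shiftLeft
          (Nat.add (Nat.sub 1 (Nat.land L m0)) (Nat.add (Nat.mul 2 (Nat.sub 1 (Nat.land L m1)))
            (Nat.mul 4 (Nat.sub 1 (Nat.land L m2))))) o)))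
          (ih ps' N)
          (Nat.beq (Nat.land (Nat.shiftRight 232 (Nat.land (Nat.shiftRight D o) 7)) 1) 0)) p) ps)
    os ps N

noncomputable def upd (D N t : Nat) : Nat := Nat.xor (Nat.xor D (Nat.land D N)) t

/-- parity scan: number of undetermined variables, parity of the nonzero ones, last undetermined -/
def scan (D : Nat) : List Nat → Nat → Nat → Nat → Nat × Nat × Nat
  | [], u, q, l => (u, q, l)
  | o :: os, u, q, l =>
      cond (Nat.beq (Nat.land (Nat.shiftRight D o) 7) 2) (scan D os u q l)
        (cond (Nat.beq (Nat.land (Nat.shiftRight D o) 2) 0) (scan D os u (Nat.sub 1 q) l)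
          (scan D os (Nat.succ u) q o))

noncomputable def frc {α : Type} (n : Nat) (f : Nat → α) : α :=
  Nat.rec (f 0) (fun k _ => f (Nat.succ k)) n

noncomputable def fT (n D : Nat) (os : List Nat) (ps : List P4) (b t : Nat) : Nat :=
  frc (getL n D os ps b) fun L =>
    cond (Nat.beq L 0) 0 (frc (Nat.lor L t) fun Lt => upd D (remv D Lt os ps 0) t)

noncomputable def fP (D : Nat) (os : List Nat) (t : Nat) : Nat :=
  Prod.rec (motive := fun _ => Nat) (fun u ql => Prod.rec (motive := fun _ => Nat) (fun q l =>
    cond (Nat.beq u 0) (cond (Nat.beq q 0) 0 D)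
      (cond (Nat.beq u 1) (upd D (Nat.shiftLeft (cond (Nat.beq q 0) 2 5) l) t) D)) ql)
    (scan D os 0 0 0)

structure Frame where
  D : Nat
  c : Nat
  L : Nat

noncomputable def run (tS tF : List P4) (tab : Tr) (bS bF : Nat) (fuel : Nat) :
    Nat → Nat → List Frame → List Nat → Bool :=
 Nat.rec (motive := fun _ => Nat → Nat → List Frame → List Nat → Bool)
  (fun _ _ _ _ => false)
  (fun fuel run code D st lem =>
    cond (Nat.beq D 0)
      -- pop
      (List.rec (motive := fun _ => Bool) true
       (fun fr st' _ => Frame.rec (motive := fun _ => Bool) (fun E c L =>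
         cond (Nat.beq L 0) (run code 0 st' lem)
          (frc (Nat.log2 L) fun k =>
            frc (upd E (remv E (Nat.shiftLeft 1 k) (tab.look c) tS 0) fuel) fun E' =>
            frc (Nat.xor L (Nat.shiftLeft 1 k)) fun L' =>
              run code E' (⟨E, c, L'⟩ :: st') lem)) fr) st)
      (frc (Nat.land code 511) fun c => frc (Nat.shiftRight code 9) fun code' =>
        cond (Nat.ble 294 c)
          (cond (Nat.beq c 511)
            (List.rec (motive := fun _ => Bool) false
              (fun E lem' _ => cond (Nat.beq (Nat.land (Nat.shiftRight D 20) (Nat.shiftRight E 20))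
                (Nat.shiftRight D 20)) (run code' 0 st lem') false) lem)
            (cond (Nat.ble 84 (Nat.sub c 300)) false
              (frc (getL 151 D (tab.look (Nat.sub c 300)) tS bS) fun L =>
                run code' 0 (⟨D, Nat.sub c 300, L⟩ :: st) lem)))
          (frc (cond (Nat.ble 210 c) (fP D (tab.look c) fuel)
            (cond (Nat.ble 84 c) (fT 2461 D (tab.look c) tF bF fuel)
              (fT 151 D (tab.look c) tS bS fuel))) fun D' => run code' D' st lem)))
   fuel

/-! ### Soundness -/

theorem frc_eq {α : Type} (n : Nat) (f : Nat → α) : frc n f = f n := by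
  cases n <;> rfl

theorem getL_nil (n D : Nat) (ps : List P4) (L : Nat) : getL n D [] ps L = L := rfl
theorem getL_nil' (n D : Nat) (o : Nat) (os : List Nat) (L : Nat) : getL n D (o :: os) [] L = L := rfl
theorem getL_cons (n D : Nat) (o : Nat) (os : List Nat) (p : P4) (ps : List P4) (L : Nat) :
    getL n D (o :: os) (p :: ps) L =
      getL n D os ps (L &&& (p.pk >>> (((D >>> o) &&& 7) * n))) := rfl

theorem remv_nil (D L : Nat) (ps : List P4) (N : Nat) : remv D L [] ps N = N := rfl
theorem remv_nil' (D L : Nat) (o : Nat) (os : List Nat) (N : Nat) : remv D L (o :: os) [] N = N := rfl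
theorem remv_cons (D L : Nat) (o : Nat) (os : List Nat) (p : P4) (ps : List P4) (N : Nat) :
    remv D L (o :: os) (p :: ps) N = remv D L os ps N ∨
    remv D L (o :: os) (p :: ps) N = remv D L os ps
      (N ||| (((1 - (L &&& p.m0)) + (2 * (1 - (L &&& p.m1)) + 4 * (1 - (L &&& p.m2)))) <<< o)) := by
  have e : remv D L (o :: os) (p :: ps) N = Bool.rec (motive := fun _ => Nat)
      (remv D L os ps (N ||| (((1 - (L &&& p.m0)) + (2 * (1 - (L &&& p.m1)) +
        4 * (1 - (L &&& p.m2)))) <<< o)))
      (remv D L os ps N)
      (Nat.beq (Nat.land (Nat.shiftRight 232 (Nat.land (Nat.shiftRight D o) 7)) 1) 0) := rfl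
  rw [e]
  cases Nat.beq (Nat.land (Nat.shiftRight 232 (Nat.land (Nat.shiftRight D o) 7)) 1) 0
  · right; rfl
  · left; rfl

def Sat (W : ℕ → ℕ) (D : ℕ) : Prop := ∀ v < 840, D.testBit (3 * v + 20 + W v) = true

def Match (W : ℕ → ℕ) (k : ℕ) : List ℕ → List P4 → Prop
  | o :: os, p :: ps => (∃ v < 840, o = 3 * v + 20 ∧ (p.m (W v)).testBit k = true) ∧ Match W k os ps
  | _, _ => True

def GoodP (n : ℕ) (p : P4) : Prop :=
  ∀ a < 8, ∀ b < 3, a.testBit b = true → (p.m b) &&& (p.pk >>> (a * n)) = p.m b

variable {W : ℕ → ℕ}

theorem getL_sound (hW : ∀ v, W v < 3) {n D k : ℕ} (hD : Sat W D) :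
    ∀ (os : List ℕ) (ps : List P4) (L : ℕ), (∀ p ∈ ps, GoodP n p) → Match W k os ps →
      L.testBit k = true → (getL n D os ps L).testBit k = true
  | [], ps, L, _, _, h => by rw [getL_nil]; exact h
  | o :: os, [], L, _, _, h => by rw [getL_nil']; exact h
  | o :: os, p :: ps, L, hp, hm, h => by
    rw [getL_cons]
    obtain ⟨⟨v, hv, rfl, hk⟩, hm'⟩ := hm
    apply getL_sound hW hD os ps _ (fun q hq => hp q (List.mem_cons_of_mem _ hq)) hm'
    rw [Nat.testBit_and, h, Bool.true_and]
    have ha : ((D >>> (3 * v + 20)) &&& 7) < 8 := by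
      have := Nat.and_lt_two_pow (D >>> (3 * v + 20)) (n := 3) (y := 7) (by norm_num)
      simpa using this
    have hb : ((D >>> (3 * v + 20)) &&& 7).testBit (W v) = true := by
      rw [Nat.testBit_and, Nat.testBit_shiftRight, hD v hv, Bool.true_and]
      have := hW v
      interval_cases W v <;> decide
    have := hp p (List.mem_cons_self) _ ha (W v) (hW v) hb
    rw [← this, Nat.testBit_and] at hk
    exact (Bool.and_eq_true _ _ ▸ hk).2

theorem digit_lt (x y z : ℕ) : (1 - x) + (2 * (1 - y) + 4 * (1 - z)) < 8 := by omega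

theorem digit_bit (x y z w : ℕ) (h : (w = 0 ∧ x ≠ 0) ∨ (w = 1 ∧ y ≠ 0) ∨ (w = 2 ∧ z ≠ 0)) :
    ((1 - x) + (2 * (1 - y) + 4 * (1 - z))).testBit w = false := by
  have hx : 1 - x = 0 ∨ 1 - x = 1 := by omega
  have hy : 1 - y = 0 ∨ 1 - y = 1 := by omega
  have hz : 1 - z = 0 ∨ 1 - z = 1 := by omega
  rcases h with ⟨rfl, h⟩ | ⟨rfl, h⟩ | ⟨rfl, h⟩
  · have : 1 - x = 0 := by omega
    rw [this]
    rcases hy with e | e <;> rcases hz with f | f <;> rw [e, f] <;> decide
  · have : 1 - y = 0 := by omega
    rw [this]
    rcases hx with e | e <;> rcases hz with f | f <;> rw [e, f] <;> decide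
  · have : 1 - z = 0 := by omega
    rw [this]
    rcases hx with e | e <;> rcases hy with f | f <;> rw [e, f] <;> decide

theorem and_ne_zero {L m k : ℕ} (h1 : L.testBit k = true) (h2 : m.testBit k = true) :
    L &&& m ≠ 0 := by
  intro h
  have : (L &&& m).testBit k = true := by rw [Nat.testBit_and, h1, h2]; rfl
  rw [h, Nat.zero_testBit] at this
  exact absurd this (by decide)

theorem shift_bit {x w v v0 w0 : ℕ} (hx : x < 8) (hw : w0 < 3)
    (h : v0 = v → w0 = w) (hb : x.testBit w = false) :
    (x <<< (3 * v + 20)).testBit (3 * v0 + 20 + w0) = false := by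
  rw [Nat.testBit_shiftLeft]
  by_cases h1 : 3 * v + 20 ≤ 3 * v0 + 20 + w0
  · have h2 : decide (3 * v0 + 20 + w0 ≥ 3 * v + 20) = true := by simpa using h1
    rw [h2, Bool.true_and]
    by_cases h3 : v0 = v
    · have e : 3 * v0 + 20 + w0 - (3 * v + 20) = w := by rw [h3, ← h h3]; omega
      rw [e]; exact hb
    · apply Nat.testBit_lt_two_pow
      have : 3 ≤ 3 * v0 + 20 + w0 - (3 * v + 20) := by omega
      calc x < 2 ^ 3 := by omega
        _ ≤ 2 ^ (3 * v0 + 20 + w0 - (3 * v + 20)) := Nat.pow_le_pow_right (by norm_num) this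
  · have h2 : decide (3 * v0 + 20 + w0 ≥ 3 * v + 20) = false := by simpa using h1
    rw [h2, Bool.false_and]

theorem remv_sound (hW : ∀ v, W v < 3) {D L k : ℕ} (hL : L.testBit k = true) (v0 : ℕ) :
    ∀ (os : List ℕ) (ps : List P4) (N : ℕ), Match W k os ps →
      N.testBit (3 * v0 + 20 + W v0) = false →
      (remv D L os ps N).testBit (3 * v0 + 20 + W v0) = false
  | [], ps, N, _, h => by rw [remv_nil]; exact h
  | o :: os, [], N, _, h => by rw [remv_nil']; exact h
  | o :: os, p :: ps, N, hm, h => by
    obtain ⟨⟨v, hv, rfl, hk⟩, hm'⟩ := hm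
    rcases remv_cons D L (3 * v + 20) os p ps N with e | e
    · rw [e]; exact remv_sound hW hL v0 os ps N hm' h
    · rw [e]
      apply remv_sound hW hL v0 os ps _ hm'
      rw [Nat.testBit_or, h, Bool.false_or]
      apply shift_bit (digit_lt _ _ _) (hW v0) (w := W v) (fun e => by rw [e])
      apply digit_bit
      have hw := hW v
      have hcases : W v = 0 ∨ W v = 1 ∨ W v = 2 := by omega
      rcases hcases with hc | hc | hc
      · left; refine ⟨hc, and_ne_zero hL ?_⟩; rw [hc] at hk; exact hk
      · right; left; refine ⟨hc, and_ne_zero hL ?_⟩; rw [hc] at hk; exact hk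
      · right; right; refine ⟨hc, and_ne_zero hL ?_⟩; rw [hc] at hk; exact hk

theorem upd_sound {D N t v w : ℕ} (ht : t < 2 ^ 20) (hD : D.testBit (3 * v + 20 + w) = true)
    (hN : N.testBit (3 * v + 20 + w) = false) : (upd D N t).testBit (3 * v + 20 + w) = true := by
  show (((D ^^^ (D &&& N)) ^^^ t)).testBit _ = true
  have h1 : t.testBit (3 * v + 20 + w) = false := by
    apply Nat.testBit_lt_two_pow
    exact lt_of_lt_of_le ht (Nat.pow_le_pow_right (by norm_num) (by omega))
  rw [Nat.testBit_xor, Nat.testBit_xor, Nat.testBit_and, hD, hN, h1]; rfl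

theorem fT_sound (hW : ∀ v, W v < 3) {n D k b t : ℕ} {os : List ℕ} {ps : List P4}
    (hps : ∀ p ∈ ps, GoodP n p) (hm : Match W k os ps) (hb : b.testBit k = true)
    (ht : t < 2 ^ 20) (hD : Sat W D) : Sat W (fT n D os ps b t) := by
  have hL := getL_sound hW hD os ps b hps hm hb
  unfold fT
  rw [frc_eq]
  have hne : Nat.beq (getL n D os ps b) 0 = false := by
    cases h : Nat.beq (getL n D os ps b) 0
    · rfl
    · rw [Nat.eq_of_beq_eq_true h, Nat.zero_testBit] at hL
      exact absurd hL (by decide)
  rw [hne, cond_false, frc_eq]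
  intro v hv
  apply upd_sound ht (hD v hv)
  apply remv_sound hW (k := k) _ v os ps 0 hm (Nat.zero_testBit _)
  show (getL n D os ps b ||| t).testBit k = true
  rw [Nat.testBit_or, hL, Bool.true_or]

def zz (W : ℕ → ℕ) (o : ℕ) : ℕ := if W ((o - 20) / 3) = 1 then 0 else 1

theorem scan_sound (hW : ∀ v, W v < 3) {D : ℕ} (hD : Sat W D) :
    ∀ (os : List ℕ) (u q l : ℕ), (∀ o ∈ os, ∃ v < 840, o = 3 * v + 20) → q ≤ 1 →
      (scan D os u q l).2.1 ≤ 1 ∧
      ((scan D os u q l).1 = 0 → u = 0 ∧
        (scan D os u q l).2.1 % 2 = (q + (os.map (zz W)).sum) % 2) ∧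
      ((scan D os u q l).1 = 1 → (u = 1 ∧ (scan D os u q l).2.2 = l ∧
          (scan D os u q l).2.1 % 2 = (q + (os.map (zz W)).sum) % 2) ∨
        (u = 0 ∧ (∃ v < 840, (scan D os u q l).2.2 = 3 * v + 20) ∧
          (scan D os u q l).2.1 % 2 = (q + (os.map (zz W)).sum + zz W (scan D os u q l).2.2) % 2))
  | [], u, q, l, _, hq => by
    refine ⟨hq, fun h => ⟨h, by simp [scan]⟩, fun h => Or.inl ⟨h, rfl, by simp [scan]⟩⟩
  | o :: os, u, q, l, ho, hq => by
    have ho' : ∀ o ∈ os, ∃ v < 840, o = 3 * v + 20 := fun x hx => ho x (List.mem_cons_of_mem _ hx)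
    obtain ⟨v, hv, rfl⟩ := ho o List.mem_cons_self
    have hDv := hD v hv
    have hzv : zz W (3 * v + 20) = if W v = 1 then 0 else 1 := by
      unfold zz
      have : (3 * v + 20 - 20) / 3 = v := by omega
      rw [this]
    rw [List.map_cons, List.sum_cons]
    unfold scan
    cases h1 : Nat.beq (Nat.land (Nat.shiftRight D (3 * v + 20)) 7) 2
    · cases h2 : Nat.beq (Nat.land (Nat.shiftRight D (3 * v + 20)) 2) 0
      · -- undetermined
        rw [cond_false, cond_false]
        obtain ⟨i1, i2, i3⟩ := scan_sound hW hD os (Nat.succ u) q (3 * v + 20) ho' hq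
        refine ⟨i1, fun h => absurd (i2 h).1 (Nat.succ_ne_zero u), fun h => ?_⟩
        rcases i3 h with ⟨j1, j2, j3⟩ | ⟨j1, _, _⟩
        · right
          refine ⟨by omega, ⟨v, hv, j2⟩, ?_⟩
          rw [j3, j2]
          omega
        · exact absurd j1 (Nat.succ_ne_zero u)
      · rw [cond_false, cond_true]
        have hw : W v ≠ 1 := by
          intro hw
          have h3 := Nat.eq_of_beq_eq_true h2
          have h4 : ((D >>> (3 * v + 20)) &&& 2).testBit 1 = true := by
            rw [Nat.testBit_and, Nat.testBit_shiftRight]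
            rw [hw] at hDv
            rw [hDv]; decide
          have h5 : ((D >>> (3 * v + 20)) &&& 2) = 0 := h3
          rw [h5] at h4
          exact absurd h4 (by decide)
        rw [if_neg hw] at hzv
        obtain ⟨i1, i2, i3⟩ := scan_sound hW hD os u (Nat.sub 1 q) l ho' (Nat.sub_le 1 q)
        have hq' : Nat.sub 1 q = 1 - q := rfl
        rw [hq'] at i1 i2 i3 ⊢
        refine ⟨i1, fun h => ⟨(i2 h).1, ?_⟩, fun h => ?_⟩
        · rw [(i2 h).2, hzv]; omega
        · rcases i3 h with ⟨j1, j2, j3⟩ | ⟨j1, j2, j3⟩
          · left; refine ⟨j1, j2, ?_⟩; rw [j3, hzv]; omega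
          · right; refine ⟨j1, j2, ?_⟩; rw [j3, hzv]; omega
    · rw [cond_true]
      have hw : W v = 1 := by
        have h3 : ((D >>> (3 * v + 20)) &&& 7) = 2 := Nat.eq_of_beq_eq_true h1
        have h4 : ((D >>> (3 * v + 20)) &&& 7).testBit (W v) = true := by
          rw [Nat.testBit_and, Nat.testBit_shiftRight, hDv]
          have := hW v
          interval_cases W v <;> decide
        rw [h3] at h4
        have := hW v
        interval_cases h : W v
        · exact absurd h4 (by decide)
        · rfl
        · exact absurd h4 (by decide)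
      rw [if_pos hw] at hzv
      obtain ⟨i1, i2, i3⟩ := scan_sound hW hD os u q l ho' hq
      rw [hzv, Nat.zero_add]
      exact ⟨i1, i2, i3⟩

theorem fP_sound (hW : ∀ v, W v < 3) {D t : ℕ} {os : List ℕ}
    (ho : ∀ o ∈ os, ∃ v < 840, o = 3 * v + 20) (hpar : (os.map (zz W)).sum % 2 = 1)
    (ht : t < 2 ^ 20) (hD : Sat W D) : Sat W (fP D os t) := by
  obtain ⟨i1, i2, i3⟩ := scan_sound hW hD os 0 0 0 ho (Nat.zero_le _)
  unfold fP
  rcases hs : scan D os 0 0 0 with ⟨u, q, l⟩
  rw [hs] at i1 i2 i3
  simp only at i1 i2 i3 ⊢
  cases h1 : Nat.beq u 0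
  · cases h2 : Nat.beq u 1
    · rw [cond_false, cond_false]; exact hD
    · rw [cond_false, cond_true]
      have hu : u = 1 := Nat.eq_of_beq_eq_true h2
      rcases i3 hu with ⟨j, _⟩ | ⟨_, ⟨v, hv, rfl⟩, j3⟩
      · exact absurd j (by decide)
      have hzv : zz W (3 * v + 20) = if W v = 1 then 0 else 1 := by
        unfold zz
        have : (3 * v + 20 - 20) / 3 = v := by omega
        rw [this]
      intro v0 hv0
      apply upd_sound ht (hD v0 hv0)
      show ((cond (Nat.beq q 0) 2 5) <<< (3 * v + 20)).testBit _ = false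
      have hWv := hW v
      cases h3 : Nat.beq q 0
      · have hq : q ≠ 0 := Nat.ne_of_beq_eq_false h3
        rw [cond_false]
        have hw : W v = 1 := by
          by_contra hw
          rw [hzv, if_neg hw] at j3
          omega
        apply shift_bit (w := W v) (by norm_num) (hW v0) (fun e => by rw [e])
        rw [hw]; decide
      · have hq : q = 0 := Nat.eq_of_beq_eq_true h3
        rw [cond_true]
        have hw : W v ≠ 1 := by
          intro hw
          rw [hzv, if_pos hw] at j3
          omega
        apply shift_bit (w := W v) (by norm_num) (hW v0) (fun e => by rw [e])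
        interval_cases W v
        · decide
        · exact absurd rfl hw
        · decide
  · rw [cond_true]
    have hu : u = 0 := Nat.eq_of_beq_eq_true h1
    have := (i2 hu).2
    cases h3 : Nat.beq q 0
    · rw [cond_false]; exact hD
    · have hq : q = 0 := Nat.eq_of_beq_eq_true h3
      omega

theorem not_sat_zero : ¬ Sat W 0 := by
  intro h
  have := h 0 (by norm_num)
  rw [Nat.zero_testBit] at this
  exact absurd this (by decide)

structure Hyp (W : ℕ → ℕ) (tS tF : List P4) (tab : Tr) (bS bF : ℕ) (kS : ℕ → ℕ) : Prop where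
  hW : ∀ v, W v < 3
  gS : ∀ p ∈ tS, GoodP 151 p
  gF : ∀ p ∈ tF, GoodP 2461 p
  hS : ∀ c < 84, bS.testBit (kS c) = true ∧ Match W (kS c) (tab.look c) tS
  hF : ∀ c, 84 ≤ c → c < 210 → ∃ k, bF.testBit k = true ∧ Match W k (tab.look c) tF
  hP : ∀ c, 210 ≤ c → c < 294 → (∀ o ∈ tab.look c, ∃ v < 840, o = 3 * v + 20) ∧
    ((tab.look c).map (zz W)).sum % 2 = 1

theorem sat_mono {D E : ℕ} (h : Nat.land (Nat.shiftRight D 20) (Nat.shiftRight E 20) =
    Nat.shiftRight D 20) (hD : Sat W D) : Sat W E := by
  intro v hv
  have h1 := hD v hv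
  have e : 3 * v + 20 + W v = 20 + (3 * v + W v) := by omega
  have h2 : (Nat.shiftRight D 20).testBit (3 * v + W v) = true := by
    show (D >>> 20).testBit _ = true
    rw [Nat.testBit_shiftRight, ← e]; exact h1
  have h3 : ((D >>> 20) &&& (E >>> 20)).testBit (3 * v + W v) = true := by
    have : ((D >>> 20) &&& (E >>> 20)) = Nat.shiftRight D 20 := h
    rw [this]; exact h2
  rw [Nat.testBit_and, Bool.and_eq_true, Nat.testBit_shiftRight, Nat.testBit_shiftRight] at h3
  rw [e]; exact h3.2

theorem run_sound {tS tF : List P4} {tab : Tr} {bS bF : ℕ} {kS : ℕ → ℕ}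
    (H : Hyp W tS tF tab bS bF kS) : ∀ (fuel : ℕ), fuel ≤ 2 ^ 20 → ∀ (code D : ℕ) (st : List Frame)
      (lem : List ℕ), (∀ E ∈ lem, ¬ Sat W E) →
      run tS tF tab bS bF fuel code D st lem = true →
      ¬ Sat W D ∧ ∀ fr ∈ st, fr.c < 84 → Sat W fr.D → fr.L.testBit (kS fr.c) = false
  | 0, _, code, D, st, lem, _, h => absurd h (by intro h; exact absurd h (by decide : ¬ (false = true)))
  | fuel + 1, hf, code, D, st, lem, hlem, h => by
    have IH := run_sound H fuel (by omega)
    have hft : fuel < 2 ^ 20 := by omega
    have e : run tS tF tab bS bF (fuel + 1) code D st lem =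
      cond (Nat.beq D 0)
      (List.rec (motive := fun _ => Bool) true
       (fun fr st' _ => Frame.rec (motive := fun _ => Bool) (fun E c L =>
         cond (Nat.beq L 0) (run tS tF tab bS bF fuel code 0 st' lem)
          (frc (Nat.log2 L) fun k =>
            frc (upd E (remv E (Nat.shiftLeft 1 k) (tab.look c) tS 0) fuel) fun E' =>
            frc (Nat.xor L (Nat.shiftLeft 1 k)) fun L' =>
              run tS tF tab bS bF fuel code E' (⟨E, c, L'⟩ :: st') lem)) fr) st)
      (frc (Nat.land code 511) fun c => frc (Nat.shiftRight code 9) fun code' =>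
        cond (Nat.ble 294 c)
          (cond (Nat.beq c 511)
            (List.rec (motive := fun _ => Bool) false
              (fun E lem' _ => cond (Nat.beq (Nat.land (Nat.shiftRight D 20) (Nat.shiftRight E 20))
                (Nat.shiftRight D 20)) (run tS tF tab bS bF fuel code' 0 st lem') false) lem)
            (cond (Nat.ble 84 (Nat.sub c 300)) false
              (frc (getL 151 D (tab.look (Nat.sub c 300)) tS bS) fun L =>
                run tS tF tab bS bF fuel code' 0 (⟨D, Nat.sub c 300, L⟩ :: st) lem)))
          (frc (cond (Nat.ble 210 c) (fP D (tab.look c) fuel)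
            (cond (Nat.ble 84 c) (fT 2461 D (tab.look c) tF bF fuel)
              (fT 151 D (tab.look c) tS bS fuel))) fun D' =>
                run tS tF tab bS bF fuel code' D' st lem)) := rfl
    rw [e] at h
    cases h0 : Nat.beq D 0
    · rw [h0, cond_false, frc_eq, frc_eq] at h
      generalize Nat.land code 511 = c at h
      generalize Nat.shiftRight code 9 = code' at h
      cases h1 : Nat.ble 294 c
      · rw [h1, cond_false, frc_eq] at h
        obtain ⟨i1, i2⟩ := IH _ _ _ _ hlem h
        refine ⟨fun hs => i1 ?_, i2⟩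
        have hc : c < 294 := by
          have := h1
          rw [← Bool.not_eq_true, Nat.ble_eq] at this
          omega
        cases h2 : Nat.ble 210 c
        · rw [cond_false]
          cases h3 : Nat.ble 84 c
          · rw [cond_false]
            have hc' : c < 84 := by
              rw [← Bool.not_eq_true, Nat.ble_eq] at h3
              omega
            exact fT_sound H.hW H.gS (H.hS c hc').2 (H.hS c hc').1 hft hs
          · rw [cond_true]
            have hc1 : c < 210 := by
              rw [← Bool.not_eq_true, Nat.ble_eq] at h2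
              omega
            obtain ⟨k, k1, k2⟩ := H.hF c (Nat.ble_eq.mp h3) hc1
            exact fT_sound H.hW H.gF k2 k1 hft hs
        · rw [cond_true]
          obtain ⟨p1, p2⟩ := H.hP c (Nat.ble_eq.mp h2) hc
          exact fP_sound H.hW p1 p2 hft hs
      · rw [h1, cond_true] at h
        generalize Nat.sub c 300 = c2 at h
        cases h5 : Nat.beq c 511
        · rw [h5, cond_false] at h
          cases h2 : Nat.ble 84 c2
          · rw [h2, cond_false, frc_eq] at h
            obtain ⟨i1, i2⟩ := IH _ _ _ _ hlem h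
            have hc' : c2 < 84 := by
              rw [← Bool.not_eq_true, Nat.ble_eq] at h2
              exact not_le.mp h2
            refine ⟨fun hs => ?_, fun fr hfr => i2 fr (List.mem_cons_of_mem _ hfr)⟩
            have j : (getL 151 D (tab.look c2) tS bS).testBit (kS c2) = false :=
              i2 ⟨D, c2, getL 151 D (tab.look c2) tS bS⟩
                List.mem_cons_self hc' hs
            have j2 := getL_sound H.hW hs _ _ _ H.gS (H.hS _ hc').2 (H.hS _ hc').1
            rw [j2] at j
            exact absurd j (by decide)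
          · rw [h2, cond_true] at h
            exact absurd h (by decide)
        · rw [h5, cond_true] at h
          cases lem with
          | nil => exact absurd (show false = true from h) Bool.false_ne_true
          | cons E lem' =>
            simp only at h
            cases h6 : Nat.beq (Nat.land (Nat.shiftRight D 20) (Nat.shiftRight E 20))
                (Nat.shiftRight D 20)
            · rw [h6, cond_false] at h
              exact absurd h (by decide)
            · rw [h6, cond_true] at h
              obtain ⟨i1, i2⟩ := IH _ _ _ _ (fun F hF => hlem F (List.mem_cons_of_mem _ hF)) h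
              exact ⟨fun hs => hlem E List.mem_cons_self (sat_mono (Nat.eq_of_beq_eq_true h6) hs), i2⟩
    · have hD0 : D = 0 := Nat.eq_of_beq_eq_true h0
      rw [h0, cond_true] at h
      refine ⟨by rw [hD0]; exact not_sat_zero, ?_⟩
      cases st with
      | nil => intro fr hfr; exact absurd hfr (List.not_mem_nil)
      | cons fr st' =>
        obtain ⟨E, c, L⟩ := fr
        simp only at h
        cases h1 : Nat.beq L 0
        · rw [h1, cond_false, frc_eq, frc_eq, frc_eq] at h
          generalize Nat.log2 L = k at h
          obtain ⟨i1, i2⟩ := IH _ _ _ _ hlem h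
          intro fr hfr hc hs
          rcases List.mem_cons.mp hfr with rfl | hfr
          · simp only at hc hs ⊢
            have j := i2 _ List.mem_cons_self hc hs
            simp only at j
            by_contra hb
            rw [Bool.not_eq_false] at hb
            by_cases hk : kS c = k
            · apply i1
              intro v hv
              apply upd_sound hft (hs v hv)
              apply remv_sound H.hW (k := kS c) _ v _ _ 0 (H.hS c hc).2 (Nat.zero_testBit _)
              rw [hk]
              show (1 <<< k).testBit k = true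
              rw [Nat.testBit_shiftLeft]; simp
            · have j2 : (L ^^^ (1 <<< k)).testBit (kS c) = false := j
              rw [Nat.testBit_xor, hb, Nat.testBit_shiftLeft] at j2
              have : (decide (kS c ≥ k) && Nat.testBit 1 (kS c - k)) = false := by
                by_cases hge : kS c ≥ k
                · have : kS c - k ≠ 0 := by omega
                  have h3 : Nat.testBit 1 (kS c - k) = false := by
                    apply Nat.testBit_lt_two_pow
                    exact Nat.one_lt_two_pow this
                  rw [h3, Bool.and_false]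
                · have h3 : decide (kS c ≥ k) = false := by simpa using hge
                  rw [h3, Bool.false_and]
              rw [this] at j2
              exact absurd j2 (by decide)
          · exact i2 fr (List.mem_cons_of_mem _ hfr) hc hs
        · rw [h1, cond_true] at h
          obtain ⟨_, i2⟩ := IH _ _ _ _ hlem h
          have hL : L = 0 := Nat.eq_of_beq_eq_true h1
          intro fr hfr hc hs
          rcases List.mem_cons.mp hfr with rfl | hfr
          · simp only; rw [hL]; exact Nat.zero_testBit _
          · exact i2 fr hfr hc hs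

end Pool.Agent.Helper683.K9
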