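import Pool.Agent.Helper683.K9.Tables2

set_option maxRecDepth 1000000
set_option maxHeartbeats 4000000

namespace Pool.Agent.Helper683.K9

def horner : List ℕ → ℕ
  | [] => 0
  | d :: ds => d + 8 * horner ds

theorem digs_horner : ∀ ds : List ℕ, (∀ d ∈ ds, d < 8) → digs ds.length (horner ds) = ds
  | [], _ => rfl
  | d :: ds, h => by
    have h1 : d < 8 := h d List.mem_cons_self
    have ih := digs_horner ds (fun x hx => h x (List.mem_cons_of_mem _ hx))
    show (d + 8 * horner ds) % 8 :: digs ds.length ((d + 8 * horner ds) / 8) = d :: ds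
    have e1 : (d + 8 * horner ds) % 8 = d := by omega
    have e2 : (d + 8 * horner ds) / 8 = horner ds := by omega
    rw [e1, e2, ih]

structure Bd (n : ℕ) (ψ : ℕ → ℕ → ℤ) : Prop where
  anti : ∀ i j, i < n → j < n → i ≠ j → ψ j i = - ψ i j
  bd : ∀ C : List ℕ, C.Nodup → (∀ x ∈ C, x < n) → 3 ≤ C.length → |cyc ψ C| ≤ 1

theorem code5_eq (ψ : ℕ → ℕ → ℤ) : code5 ψ = horner (tri5.map (dg ψ)) := by
  unfold code5 tri5
  simp only [List.map_cons, List.map_nil, horner]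
  ring

theorem tri5_ok : ∀ C ∈ tri5, C.Nodup ∧ (∀ x ∈ C, x < 5) ∧ 3 ≤ C.length := by decide

theorem dg_lt {ψ : ℕ → ℕ → ℤ} {C : List ℕ} (h : |cyc ψ C| ≤ 1) : dg ψ C < 3 := by
  unfold dg; rw [abs_le] at h; omega

theorem digs_code {ψ : ℕ → ℕ → ℤ} (h : Bd 5 ψ) : digs 10 (code5 ψ) = tri5.map (dg ψ) := by
  rw [code5_eq]
  have := digs_horner (tri5.map (dg ψ)) (by
    intro d hd
    obtain ⟨C, hC, rfl⟩ := List.mem_map.mp hd
    obtain ⟨h1, h2, h3⟩ := tri5_ok C hC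
    have := dg_lt (h.bd C h1 h2 h3)
    omega)
  exact this

theorem wk_sub (ψ χ : ℕ → ℕ → ℤ) (z : ℕ) : ∀ C : List ℕ,
    wk (fun i j => ψ i j - χ i j) z C = wk ψ z C - wk χ z C
  | [] => by simp [wk]
  | [a] => by simp [wk]
  | a :: b :: r => by
    have := wk_sub ψ χ z (b :: r)
    simp only [wk]; rw [this]; ring

theorem cyc_sub (ψ χ : ℕ → ℕ → ℤ) (C : List ℕ) :
    cyc (fun i j => ψ i j - χ i j) C = cyc ψ C - cyc χ C := by
  cases C with
  | nil => simp [cyc]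
  | cons a r => exact wk_sub ψ χ a (a :: r)

theorem wk_add (ψ χ : ℕ → ℕ → ℤ) (z : ℕ) : ∀ C : List ℕ,
    wk (fun i j => ψ i j + χ i j) z C = wk ψ z C + wk χ z C
  | [] => by simp [wk]
  | [a] => by simp [wk]
  | a :: b :: r => by
    have := wk_add ψ χ z (b :: r)
    simp only [wk]; rw [this]; ring

theorem cyc_add (ψ χ : ℕ → ℕ → ℤ) (C : List ℕ) :
    cyc (fun i j => ψ i j + χ i j) C = cyc ψ C + cyc χ C := by
  cases C with
  | nil => simp [cyc]
  | cons a r => exact wk_add ψ χ a (a :: r)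

theorem dg_sub {ψ χ : ℕ → ℕ → ℤ} {C : List ℕ} (h1 : |cyc ψ C| ≤ 1) (h2 : |cyc χ C| ≤ 1)
    (h3 : |cyc (fun i j => ψ i j - χ i j) C| ≤ 1) :
    dg (fun i j => ψ i j - χ i j) C + dg χ C = dg ψ C + 1 := by
  unfold dg
  rw [cyc_sub] at *
  rw [abs_le] at *
  omega

theorem dg_add {ψ χ : ℕ → ℕ → ℤ} {C : List ℕ} (h1 : |cyc ψ C| ≤ 1) (h2 : |cyc χ C| ≤ 1)
    (h3 : |cyc (fun i j => ψ i j + χ i j) C| ≤ 1) :
    dg (fun i j => ψ i j + χ i j) C + 1 = dg ψ C + dg χ C := by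
  unfold dg
  rw [cyc_add] at *
  rw [abs_le] at *
  omega

theorem horner_add : ∀ (l : List (List ℕ)) (f g h : List ℕ → ℕ), (∀ C ∈ l, h C + 1 = f C + g C) →
    horner (l.map h) + horner (l.map fun _ => 1) = horner (l.map f) + horner (l.map g)
  | [], _, _, _, _ => rfl
  | C :: l, f, g, h, H => by
    have ih := horner_add l f g h (fun x hx => H x (List.mem_cons_of_mem _ hx))
    have := H C List.mem_cons_self
    simp only [List.map_cons, horner]
    omega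

theorem ones_eq : horner (tri5.map fun _ => 1) = ones := by decide

theorem code_add {ψ χ : ℕ → ℕ → ℤ} (h1 : Bd 5 ψ) (h2 : Bd 5 χ)
    (h3 : Bd 5 (fun i j => ψ i j + χ i j)) :
    code5 (fun i j => ψ i j + χ i j) + ones = code5 ψ + code5 χ := by
  rw [code5_eq, code5_eq, code5_eq, ← ones_eq]
  apply horner_add
  intro C hC
  obtain ⟨k1, k2, k3⟩ := tri5_ok C hC
  exact dg_add (h1.bd C k1 k2 k3) (h2.bd C k1 k2 k3) (h3.bd C k1 k2 k3)

theorem code_sub {ψ χ : ℕ → ℕ → ℤ} (h1 : Bd 5 ψ) (h2 : Bd 5 χ)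
    (h3 : Bd 5 (fun i j => ψ i j - χ i j)) :
    code5 ψ + ones = code5 (fun i j => ψ i j - χ i j) + code5 χ := by
  rw [code5_eq, code5_eq, code5_eq, ← ones_eq]
  apply horner_add
  intro C hC
  obtain ⟨k1, k2, k3⟩ := tri5_ok C hC
  exact (dg_sub (h1.bd C k1 k2 k3) (h2.bd C k1 k2 k3) (h3.bd C k1 k2 k3)).symm

theorem K5h {ψ : ℕ → ℕ → ℤ} (h : Bd 5 ψ) : hash5 (code5 ψ) = 1 := K5_complete ψ h.anti h.bd

theorem F_complete {A0 A1 A2 : ℕ → ℕ → ℤ} (h0 : Bd 5 A0) (h1 : Bd 5 A1) (h2 : Bd 5 A2)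
    (h01 : Bd 5 (fun i j => A0 i j - A1 i j)) (h02 : Bd 5 (fun i j => A0 i j + A2 i j))
    (h21 : Bd 5 (fun i j => A2 i j - A1 i j))
    (h3 : Bd 5 (fun i j => (A0 i j + A2 i j) - A1 i j)) :
    ∃ k, bF.testBit k = true ∧ List.Forall₂ (fun d p => (P4.m p d).testBit k = true)
      (tri5.map (dg A0) ++ (tri5.map (dg A1) ++ (tri5.map (dg A2) ++
        tri5.map (dg (fun i j => (A0 i j + A2 i j) - A1 i j))))) tF := by
  have H := fchk_true
  unfold fchk at H
  rw [List.all_eq_true] at H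
  have Ha := H _ (mem_form5 (K5h h0))
  rw [List.all_eq_true] at Ha
  have Hb := Ha _ (mem_form5 (K5h h1))
  have e01 : code5 A0 + ones - code5 A1 = code5 (fun i j => A0 i j - A1 i j) := by
    have := code_sub h0 h1 h01; omega
  rw [e01, K5h h01] at Hb
  have Hb' := imp_spec Hb rfl
  rw [List.all_eq_true] at Hb'
  have Hc := Hb' _ (mem_form5 (K5h h2))
  have e02 : code5 A0 + code5 A2 - ones = code5 (fun i j => A0 i j + A2 i j) := by
    have := code_add h0 h2 h02; omega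
  have e21 : code5 A2 + ones - code5 A1 = code5 (fun i j => A2 i j - A1 i j) := by
    have := code_sub h2 h1 h21; omega
  rw [e02, e21, K5h h02, K5h h21] at Hc
  have Hd := imp_spec (imp_spec Hc rfl) rfl
  rw [Bool.not_eq_true'] at Hd
  have e3 : code5 A0 + code5 A2 - code5 A1 =
      code5 (fun i j => (A0 i j + A2 i j) - A1 i j) := by
    have k1 := code_add h0 h2 h02
    have k2 := code_sub h02 h1 h3
    omega
  rw [e3, digs_code h0, digs_code h1, digs_code h2, digs_code h3] at Hd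
  exact andm_ex rfl Hd

end Pool.Agent.Helper683.K9
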