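import Pool.Agent.Helper683.K9.Start
import Pool.Agent.Helper683.K9.CertA1
import Pool.Agent.Helper683.K9.CertA2
import Pool.Agent.Helper683.K9.CertA3
import Pool.Agent.Helper683.K9.CertB

set_option maxRecDepth 1000000
set_option maxHeartbeats 4000000

namespace Pool.Agent.Helper683.K9

variable {t : ℕ → ℕ → ℕ → ℕ → ℤ}

def l0 : List ℕ := [0, 1, 2, 3, 4, 5, 6, 7, 8]
def l346 : List ℕ := [3, 4, 6, 0, 1, 2, 5, 7, 8]

theorem sI0 : sI.getD 0 [] = l0 := by decide
theorem sI65 : sI.getD 65 [] = l346 := by decide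

theorem fm_rl {s : ℤ} {l' m : List ℕ} (hm : m.length = 9) {i j : ℕ} (hi : i < 6) (hj : j < 6) :
    fm (rl t s l') m i j = s * fm t (m.map (gt l')) i j := by
  unfold fm
  rw [psi_rl, gt_map (by omega), gt_map (by omega), gt_map (by omega), gt_map (by omega),
    gt_map (by omega)]
  rfl

theorem gt_l0 : ∀ n < 9, gt l0 n = n := by decide

theorem map_l0 {l : List ℕ} (hl : l.length = 9) : l0.map (gt l) = l := by
  apply List.ext_getElem
  · rw [List.length_map, hl]; rfl
  · intro n h1 h2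
    rw [List.getElem_map]
    have h9 : n < 9 := by rw [hl] at h2; exact h2
    have : l0[n]'(by simpa [l0] using h9) = n := by
      have := gt_l0 n h9
      unfold gt at this
      rwa [List.getD_eq_getElem _ _ (by simpa [l0] using h9)] at this
    rw [this]
    unfold gt
    rw [List.getD_eq_getElem _ _ h2]

theorem l0_map {l : List ℕ} (hok : OK l) : l.map (gt l0) = l := by
  conv_rhs => rw [← List.map_id l]
  apply List.map_congr_left
  intro x hx
  exact gt_l0 x (hok.2 x hx)

theorem Form_congr {ψ χ : ℕ → ℕ → ℤ} (h : ∀ i < 6, ∀ j < 6, ψ i j = χ i j) {k : ℕ} (hk : Form ψ k) :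
    Form χ k := by
  unfold Form at *
  have : tri6.map (dg ψ) = tri6.map (dg χ) := by
    apply List.map_congr_left
    intro I hI
    obtain ⟨i, j, l, rfl, hn, h1, h2, h3⟩ := tri6_ok I hI
    unfold dg
    rw [cyc3, cyc3, h i h1 j h2, h j h2 l h3, h l h3 i h1]
  rw [← this]; exact hk

theorem hyp_of (h : Good t) (b : ℕ) (hb : ∀ l : List ℕ, l.length = 9 → OK l →
    ∃ k, b.testBit k = true ∧ Form (fm t l) k) : ∃ kS, Hyp (Wt t) tS tF tab b bF kS := by
  have : ∀ c : ℕ, ∃ k, c < 84 → b.testBit k = true ∧ Form (fm t (sI.getD c [])) k := by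
    intro c
    by_cases hc : c < 84
    · have := rowsS c hc
      rw [Bool.and_eq_true] at this
      obtain ⟨hl, hok⟩ := okb_spec this.1
      obtain ⟨k, hk⟩ := hb _ hl hok
      exact ⟨k, fun _ => hk⟩
    · exact ⟨0, fun h => absurd h hc⟩
  choose kS hkS using this
  exact ⟨kS, ⟨Wt_lt t, gS_ok, gF_ok, fun c hc => ⟨(hkS c hc).1, h.hS hc (hkS c hc).2⟩,
    fun c h1 h2 => h.hF h1 h2, fun c h1 h2 => h.hP h1 h2⟩⟩

theorem lt_of_testBit {b k : ℕ} (hb : b < 2 ^ 171) (h : b.testBit k = true) : k < 171 := by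
  by_contra hk
  have : b < 2 ^ k := lt_of_lt_of_le hb (Nat.pow_le_pow_right (by norm_num) (by omega))
  rw [Nat.testBit_lt_two_pow this] at h
  exact absurd h (by decide)

theorem bS_lt : bS < 2 ^ 171 := by decide +kernel
theorem b2_lt : b2 < 2 ^ 171 := by decide +kernel
theorem b12 : b1 ||| b2 = bS := by decide +kernel

theorem tab2_ok : ∀ q ∈ tab2, ((okb 9 q.2.2.1 && decide (q.2.1 = 1 ∨ q.2.1 = -1)) &&
    (decide (l346.map (gt q.2.2.1) = q.2.2.2.1.map (gt l346)) &&
    (chkT k0 q.2.1 q.2.2.1 k0 && (chkT q.1 q.2.1 q.2.2.2.1 q.2.2.2.2 &&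
      decide (q.2.2.2.2 = kA1 ∨ q.2.2.2.2 = kA2 ∨ q.2.2.2.2 = kA3))))) = true := by
  decide +kernel

theorem live_ok : ∀ k < 171, (getL 151 (asg full 0 k0) (tab.look 65) tS bS).testBit k = true →
    (tab2.any fun q => Nat.beq q.1 k) = true := by decide +kernel

theorem certA {W : ℕ → ℕ} {kS : ℕ → ℕ} (H : Hyp W tS tF tab bS bF kS) (k : ℕ)
    (hk : k = kA1 ∨ k = kA2 ∨ k = kA3) : ¬ Sat W (asg (asg full 0 k0) 65 k) := by
  rcases hk with rfl | rfl | rfl
  · exact certA1 H
  · exact certA2 H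
  · exact certA3 H

theorem caseA2 (h : Good t) (h0 : Form (fm t l0) k0) : False := by
  obtain ⟨k, hk1, hk2⟩ := h.fm_form (l := l346) (by decide) (by decide)
  have hs : Sat (Wt t) (asg full 0 k0) := by
    apply sat_asg (Wt_lt t) (sat_full (Wt_lt t))
    exact h.hS (by norm_num) (by rw [sI0]; exact h0)
  have hlive := getL_sound (Wt_lt t) hs (tab.look 65) tS bS gS_ok
    (h.hS (c := 65) (by norm_num) (by rw [sI65]; exact hk2)) hk1
  have hany := live_ok k (lt_of_testBit bS_lt hk1) hlive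
  rw [List.any_eq_true] at hany
  obtain ⟨q, hq, hqk⟩ := hany
  have hqk' : q.1 = k := Nat.eq_of_beq_eq_true hqk
  have hok := tab2_ok q hq
  rw [Bool.and_eq_true, Bool.and_eq_true, Bool.and_eq_true, Bool.and_eq_true, Bool.and_eq_true,
    decide_eq_true_eq, decide_eq_true_eq, decide_eq_true_eq] at hok
  obtain ⟨⟨g1, g2⟩, g3, g4, g5, g6⟩ := hok
  obtain ⟨gl, gok⟩ := okb_spec g1
  set σ := q.2.2.1
  have h' : Good (rl t q.2.1 σ) := h.rl g2 gl gok
  have f0 : Form (fm (rl t q.2.1 σ) l0) k0 := by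
    apply chkT_spec h (l := l0) (by decide) (by decide) g4 h0
    intro i hi j hj
    rw [fm_rl (by decide) hi hj, map_l0 gl, l0_map gok]
  have f1 : Form (fm (rl t q.2.1 σ) l346) q.2.2.2.2 := by
    apply chkT_spec h (l := l346) (by decide) (by decide) g5 (by rw [hqk']; exact hk2)
    intro i hi j hj
    rw [fm_rl (by decide) hi hj, g3]
  obtain ⟨kS, H⟩ := hyp_of h' bS (fun l hl hok => h'.fm_form hl hok)
  apply certA H _ g6
  apply sat_asg (Wt_lt _)
  · apply sat_asg (Wt_lt _) (sat_full (Wt_lt _))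
    exact h'.hS (by norm_num) (by rw [sI0]; exact f0)
  · exact h'.hS (by norm_num) (by rw [sI65]; exact f1)

theorem perm_OK {l τ : List ℕ} (hl : l.length = 9) (hok : OK l) (hτ : OK τ) : OK (τ.map (gt l)) :=
  OK_comp hl hok hτ

theorem caseA (h : Good t) {l : List ℕ} (hl : l.length = 9) (hok : OK l) {k : ℕ}
    (hk : Form (fm t l) k) (hb : b2.testBit k = true) : False := by
  have hany := tab1_all k (lt_of_testBit b2_lt hb) hb
  rw [List.any_eq_true] at hany
  obtain ⟨q, hq, hqk⟩ := hany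
  have hqk' : q.1 = k := Nat.eq_of_beq_eq_true hqk
  have hc := tab1_ok q hq
  have hτ : q.2.length = 9 ∧ OK q.2 := by
    have := hc
    unfold chkT at this
    rw [Bool.and_eq_true, Bool.and_eq_true] at this
    exact okb_spec this.1.1
  have hl' : (q.2.map (gt l)).length = 9 := by rw [List.length_map]; exact hτ.1
  have hok' := OK_comp hl hok hτ.2
  have h' := h.rl (s := 1) (Or.inl rfl) hl' hok'
  apply caseA2 h'
  apply chkT_spec h hl hok hc (by rw [hqk']; exact hk)
  intro i hi j hj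
  rw [fm_rl (by decide) hi hj, map_l0 hl']

theorem exists_nonzero (h : Good t) : ∃ l : List ℕ, l.length = 9 ∧ OK l ∧ cyc (fm t l) [0, 1, 2] ≠ 0 := by
  by_contra hne
  push Not at hne
  have p := h.par [0, 1, 2, 3, 4, 5] (by decide) (by decide)
  have : (tens.map fun q => SS t (q.1.map (gt [0, 1, 2, 3, 4, 5])) (q.2.map (gt [0, 1, 2, 3, 4, 5]))) =
      tens.map fun _ => (0 : ℤ) := by
    apply List.map_congr_left
    intro q hq
    simp only [tens, List.mem_cons, List.not_mem_nil, or_false] at hq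
    rcases hq with e | e | e | e | e | e | e | e | e | e <;> subst e
    · exact hne [0, 1, 2, 3, 4, 5, 6, 7, 8] (by decide) (by decide)
    · exact hne [0, 1, 3, 2, 4, 5, 6, 7, 8] (by decide) (by decide)
    · exact hne [0, 1, 4, 2, 3, 5, 6, 7, 8] (by decide) (by decide)
    · exact hne [0, 1, 5, 2, 3, 4, 6, 7, 8] (by decide) (by decide)
    · exact hne [0, 2, 3, 1, 4, 5, 6, 7, 8] (by decide) (by decide)
    · exact hne [0, 2, 4, 1, 3, 5, 6, 7, 8] (by decide) (by decide)
    · exact hne [0, 2, 5, 1, 3, 4, 6, 7, 8] (by decide) (by decide)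
    · exact hne [0, 3, 4, 1, 2, 5, 6, 7, 8] (by decide) (by decide)
    · exact hne [0, 3, 5, 1, 2, 4, 6, 7, 8] (by decide) (by decide)
    · exact hne [0, 4, 5, 1, 2, 3, 6, 7, 8] (by decide) (by decide)
  rw [this] at p
  exact absurd p (by decide)

theorem tdZ : (tS.map (td kZ)).getD 0 0 = 1 := by decide +kernel

/-- the finite theorem -/
theorem no_good (h : Good t) : False := by
  by_cases hN : ∀ l : List ℕ, l.length = 9 → OK l → ∀ k, Form (fm t l) k → b2.testBit k = false
  · have hb1 : ∀ (t : ℕ → ℕ → ℕ → ℕ → ℤ), Good t →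
        (∀ l : List ℕ, l.length = 9 → OK l → ∀ k, Form (fm t l) k → b2.testBit k = false) →
        ∀ l : List ℕ, l.length = 9 → OK l → ∃ k, b1.testBit k = true ∧ Form (fm t l) k := by
      intro t h hN l hl hok
      obtain ⟨k, k1, k2⟩ := h.fm_form hl hok
      refine ⟨k, ?_, k2⟩
      have := hN l hl hok k k2
      rw [← b12, Nat.testBit_or, this, Bool.or_false] at k1
      exact k1
    obtain ⟨l, hl, hok, hne⟩ := exists_nonzero h
    obtain ⟨k, k1, k2⟩ := hb1 t h hN l hl hok
    have hkZ : k ≠ kZ := by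
      intro e
      have E := k2.eq (h.fm_Bd hl hok)
      have e1 : (tri6.map (dg (fm t l))).getD 0 0 = dg (fm t l) [0, 1, 2] := rfl
      rw [E, e, tdZ] at e1
      have hb := (h.fm_Bd hl hok).bd [0, 1, 2] (by decide) (by decide) (by decide)
      rw [abs_le] at hb
      unfold dg at e1
      omega
    have hk171 : k < 171 := by
      apply lt_of_testBit bS_lt
      rw [← b12, Nat.testBit_or, k1, Bool.true_or]
    have hany := tab1B_all k hk171 k1 hkZ
    rw [List.any_eq_true] at hany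
    obtain ⟨q, hq, hqk⟩ := hany
    have hqk' : q.1 = k := Nat.eq_of_beq_eq_true hqk
    have hc := tab1B_ok q hq
    have hτ : q.2.length = 9 ∧ OK q.2 := by
      have := hc
      unfold chkT at this
      rw [Bool.and_eq_true, Bool.and_eq_true] at this
      exact okb_spec this.1.1
    have hl' : (q.2.map (gt l)).length = 9 := by rw [List.length_map]; exact hτ.1
    have hok' := OK_comp hl hok hτ.2
    have h' := h.rl (s := 1) (Or.inl rfl) hl' hok'
    have hN' : ∀ m : List ℕ, m.length = 9 → OK m → ∀ k, Form (fm (rl t 1 (q.2.map (gt l))) m) k →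
        b2.testBit k = false := by
      intro m hm hmok k hk
      apply hN (m.map (gt (q.2.map (gt l)))) (by rw [List.length_map]; exact hm) (OK_comp hl' hok' hmok) k
      apply Form_congr _ hk
      intro i hi j hj
      rw [fm_rl hm hi hj, one_mul]
    have f0 : Form (fm (rl t 1 (q.2.map (gt l))) l0) kB := by
      apply chkT_spec h hl hok hc (by rw [hqk']; exact k2)
      intro i hi j hj
      rw [fm_rl (by decide) hi hj, map_l0 hl']
    obtain ⟨kS, H⟩ := hyp_of h' b1 (hb1 _ h' hN')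
    apply certB H
    apply sat_asg (Wt_lt _) (sat_full (Wt_lt _))
    exact h'.hS (by norm_num) (by rw [sI0]; exact f0)
  · push Not at hN
    obtain ⟨l, hl, hok, k, hk, hb⟩ := hN
    exact caseA h hl hok hk (by rwa [ne_eq, Bool.not_eq_false] at hb)

end Pool.Agent.Helper683.K9
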