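import Pool.Agent.Helper683.K9.FComp

set_option maxRecDepth 1000000
set_option maxHeartbeats 4000000

namespace Pool.Agent.Helper683.K9

/-- value of the pairing on two cycles -/
def SS (t : ℕ → ℕ → ℕ → ℕ → ℤ) (C D : List ℕ) : ℤ := cyc (fun x y => cyc (fun a b => t a b x y) C) D

def OK (l : List ℕ) : Prop := l.Nodup ∧ ∀ x ∈ l, x < 9

instance (l : List ℕ) : Decidable (OK l) := inferInstanceAs (Decidable (_ ∧ _))

def tens : List (List ℕ × List ℕ) := [([0,1,2],[3,4,5]), ([0,1,3],[2,4,5]), ([0,1,4],[2,3,5]),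
  ([0,1,5],[2,3,4]), ([0,2,3],[1,4,5]), ([0,2,4],[1,3,5]), ([0,2,5],[1,3,4]), ([0,3,4],[1,2,5]),
  ([0,3,5],[1,2,4]), ([0,4,5],[1,2,3])]

def gt (l : List ℕ) (i : ℕ) : ℕ := l.getD i 0

structure Good (t : ℕ → ℕ → ℕ → ℕ → ℤ) : Prop where
  a1 : ∀ a b x y, t b a x y = - t a b x y
  a2 : ∀ a b x y, t a b y x = - t a b x y
  sym : ∀ a b c x y z, OK [a, b, c, x, y, z] → SS t [a, b, c] [x, y, z] = SS t [x, y, z] [a, b, c]
  par : ∀ l : List ℕ, l.length = 6 → OK l →
    ((tens.map fun q => SS t (q.1.map (gt l)) (q.2.map (gt l))).sum) % 2 = 1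
  bd : ∀ C D : List ℕ, OK (C ++ D) → 3 ≤ C.length → 3 ≤ D.length → |SS t C D| ≤ 1

theorem wk_map (ψ : ℕ → ℕ → ℤ) (σ : ℕ → ℕ) (z : ℕ) : ∀ C : List ℕ,
    wk (fun i j => ψ (σ i) (σ j)) z C = wk ψ (σ z) (C.map σ)
  | [] => rfl
  | [a] => rfl
  | a :: b :: r => by
    have := wk_map ψ σ z (b :: r)
    simp only [wk, List.map_cons] at *; rw [this]

theorem cyc_map (ψ : ℕ → ℕ → ℤ) (σ : ℕ → ℕ) (C : List ℕ) :
    cyc (fun i j => ψ (σ i) (σ j)) C = cyc ψ (C.map σ) := by
  cases C with
  | nil => rfl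
  | cons a r => exact wk_map ψ σ a (a :: r)

theorem wk_smul (s : ℤ) (ψ : ℕ → ℕ → ℤ) (z : ℕ) : ∀ C : List ℕ,
    wk (fun i j => s * ψ i j) z C = s * wk ψ z C
  | [] => by simp [wk]
  | [a] => by simp [wk]
  | a :: b :: r => by
    have := wk_smul s ψ z (b :: r)
    simp only [wk]; rw [this]; ring

theorem cyc_smul (s : ℤ) (ψ : ℕ → ℕ → ℤ) (C : List ℕ) :
    cyc (fun i j => s * ψ i j) C = s * cyc ψ C := by
  cases C with
  | nil => simp [cyc]
  | cons a r => exact wk_smul s ψ a (a :: r)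

theorem wk_neg (ψ : ℕ → ℕ → ℤ) (z : ℕ) : ∀ C : List ℕ,
    wk (fun i j => - ψ i j) z C = - wk ψ z C
  | [] => by simp [wk]
  | [a] => by simp [wk]
  | a :: b :: r => by
    have := wk_neg ψ z (b :: r)
    simp only [wk]; rw [this]; ring

theorem cyc_neg (ψ : ℕ → ℕ → ℤ) (C : List ℕ) : cyc (fun i j => - ψ i j) C = - cyc ψ C := by
  cases C with
  | nil => simp [cyc]
  | cons a r => exact wk_neg ψ a (a :: r)

/-- the form of the cycle `C` -/
def psi (t : ℕ → ℕ → ℕ → ℕ → ℤ) (C : List ℕ) (x y : ℕ) : ℤ := cyc (fun a b => t a b x y) C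

theorem SS_psi (t : ℕ → ℕ → ℕ → ℕ → ℤ) (C D : List ℕ) : SS t C D = cyc (psi t C) D := rfl

variable {t : ℕ → ℕ → ℕ → ℕ → ℤ}

theorem Good.psi_anti (h : Good t) (C : List ℕ) (x y : ℕ) : psi t C y x = - psi t C x y := by
  unfold psi
  rw [← cyc_neg]
  congr 1
  funext a b
  exact h.a2 a b x y

theorem Good.t_self (h : Good t) (a x y : ℕ) : t a a x y = 0 := by
  have := h.a1 a a x y; omega

/-- restricted forms are bounded -/
theorem Good.Bd_psi (h : Good t) (n : ℕ) (C : List ℕ) (X : ℕ → ℕ) (hC : 3 ≤ C.length)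
    (hX : ∀ i < n, X i < 9) (hXC : ∀ i < n, X i ∉ C) (hCC : OK C)
    (hinj : ∀ i < n, ∀ j < n, X i = X j → i = j) : Bd n (fun i j => psi t C (X i) (X j)) where
  anti i j _ _ _ := h.psi_anti C (X i) (X j)
  bd D hD hDn hDl := by
    rw [cyc_map (psi t C) X D, ← SS_psi]
    apply h.bd C (D.map X)
    · refine ⟨?_, ?_⟩
      · rw [List.nodup_append]
        refine ⟨hCC.1, ?_, ?_⟩
        · apply List.Nodup.map_on _ hD
          intro x hx y hy e
          exact hinj x (hDn x hx) y (hDn y hy) e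
        · intro a ha b hb e
          obtain ⟨i, hi, rfl⟩ := List.mem_map.mp hb
          exact hXC i (hDn i hi) (e ▸ ha)
      · intro x hx
        rcases List.mem_append.mp hx with hx | hx
        · exact hCC.2 x hx
        · obtain ⟨i, hi, rfl⟩ := List.mem_map.mp hx
          exact hX i (hDn i hi)
    · exact hC
    · rw [List.length_map]; exact hDl

/-! ### the variables -/

def h16 : List ℕ → ℕ
  | [] => 0
  | d :: ds => d + 16 * h16 ds

def vget (v : ℕ) : ℕ := Nat.land (Nat.shiftRight VL (Nat.mul 24 v)) 16777215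

/-- value of the variable `v` -/
def Wt (t : ℕ → ℕ → ℕ → ℕ → ℤ) (v : ℕ) : ℕ :=
  min 2 ((SS t [vget v % 16, vget v / 16 % 16, vget v / 256 % 16]
    [vget v / 4096 % 16, vget v / 65536 % 16, vget v / 1048576 % 16] + 1).toNat)

theorem Wt_lt (t : ℕ → ℕ → ℕ → ℕ → ℤ) (v : ℕ) : Wt t v < 3 := by
  unfold Wt; omega

theorem Good.Wt_eq (h : Good t) {v a b c x y z : ℕ} (hok : OK [a, b, c, x, y, z])
    (hv : vget v = h16 [a, b, c, x, y, z] ∨ vget v = h16 [x, y, z, a, b, c]) :
    Wt t v = (SS t [a, b, c] [x, y, z] + 1).toNat := by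
  have ha := hok.2 a (by simp)
  have hb := hok.2 b (by simp)
  have hc := hok.2 c (by simp)
  have hx := hok.2 x (by simp)
  have hy := hok.2 y (by simp)
  have hz := hok.2 z (by simp)
  have key : Wt t v = min 2 ((SS t [a, b, c] [x, y, z] + 1).toNat) := by
    rcases hv with hv | hv
    · unfold Wt
      simp only [h16] at hv
      have e1 : vget v % 16 = a := by omega
      have e2 : vget v / 16 % 16 = b := by omega
      have e3 : vget v / 256 % 16 = c := by omega
      have e4 : vget v / 4096 % 16 = x := by omega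
      have e5 : vget v / 65536 % 16 = y := by omega
      have e6 : vget v / 1048576 % 16 = z := by omega
      rw [e1, e2, e3, e4, e5, e6]
    · unfold Wt
      simp only [h16] at hv
      have e1 : vget v % 16 = x := by omega
      have e2 : vget v / 16 % 16 = y := by omega
      have e3 : vget v / 256 % 16 = z := by omega
      have e4 : vget v / 4096 % 16 = a := by omega
      have e5 : vget v / 65536 % 16 = b := by omega
      have e6 : vget v / 1048576 % 16 = c := by omega
      rw [e1, e2, e3, e4, e5, e6, h.sym a b c x y z hok]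
  have hb' := h.bd [a, b, c] [x, y, z] hok (by simp) (by simp)
  rw [abs_le] at hb'
  rw [key]; omega

/-- rows of tables against lists of pairs of triangles -/
def rowChk : List ℕ → List (List ℕ × List ℕ) → Bool
  | [], [] => true
  | o :: os, q :: qs => (Nat.beq o (3 * ((o - 20) / 3) + 20) && (Nat.blt ((o - 20) / 3) 840 &&
      (Nat.beq (vget ((o - 20) / 3)) (h16 (q.1 ++ q.2)) || Nat.beq (vget ((o - 20) / 3)) (h16 (q.2 ++ q.1)))))
        && rowChk os qs
  | _, _ => false

def RowRel (o : ℕ) (q : List ℕ × List ℕ) : Prop :=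
  ∃ v < 840, o = 3 * v + 20 ∧ (vget v = h16 (q.1 ++ q.2) ∨ vget v = h16 (q.2 ++ q.1))

theorem rowChk_spec : ∀ (os : List ℕ) (qs : List (List ℕ × List ℕ)), rowChk os qs = true →
    List.Forall₂ RowRel os qs
  | [], [], _ => List.Forall₂.nil
  | [], q :: qs, h => absurd h (by simp [rowChk])
  | o :: os, [], h => absurd h (by simp [rowChk])
  | o :: os, q :: qs, h => by
    unfold rowChk at h
    rw [Bool.and_eq_true, Bool.and_eq_true, Bool.and_eq_true, Bool.or_eq_true] at h
    obtain ⟨⟨h1, h2, h3⟩, h4⟩ := h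
    refine List.Forall₂.cons ⟨(o - 20) / 3, ?_, Nat.eq_of_beq_eq_true h1, ?_⟩ (rowChk_spec os qs h4)
    · simpa [Nat.blt_eq] using h2
    · rcases h3 with h3 | h3
      · exact Or.inl (Nat.eq_of_beq_eq_true h3)
      · exact Or.inr (Nat.eq_of_beq_eq_true h3)

/-- shape of a pair of triangles -/
def Tr2 (q : List ℕ × List ℕ) : Prop := ∃ a b c x y z, q = ([a, b, c], [x, y, z]) ∧ OK [a, b, c, x, y, z]

theorem Good.match_of (h : Good t) {k : ℕ} : ∀ (os : List ℕ) (qs : List (List ℕ × List ℕ))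
    (ps : List P4), List.Forall₂ RowRel os qs → (∀ q ∈ qs, Tr2 q) →
    List.Forall₂ (fun d p => (P4.m p d).testBit k = true)
      (qs.map fun q => (SS t q.1 q.2 + 1).toNat) ps → Match (Wt t) k os ps
  | [], _, _, _, _, _ => by unfold Match; trivial
  | o :: os, _, [], _, _, _ => by unfold Match; trivial
  | o :: os, [], p :: ps, h1, _, _ => absurd h1 (by intro h; cases h)
  | o :: os, q :: qs, p :: ps, h1, h2, h3 => by
    obtain ⟨r1, r2⟩ := List.forall₂_cons.mp h1
    rw [List.map_cons] at h3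
    obtain ⟨s1, s2⟩ := List.forall₂_cons.mp h3
    refine ⟨?_, h.match_of os qs ps r2 (fun q hq => h2 q (List.mem_cons_of_mem _ hq)) s2⟩
    obtain ⟨v, hv, ho, hv'⟩ := r1
    obtain ⟨a, b, c, x, y, z, rfl, hok⟩ := h2 _ List.mem_cons_self
    refine ⟨v, hv, ho, ?_⟩
    rw [h.Wt_eq hok hv']
    exact s1

/-! ### rows of triangle tables -/

def Sq (l : List ℕ) : List (List ℕ × List ℕ) :=
  tri6.map fun I => ([gt l 0, gt l 1, gt l 2], I.map fun i => gt l (3 + i))

/-- the form of the triangle given by the first three entries of `l` on the other six -/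
def fm (t : ℕ → ℕ → ℕ → ℕ → ℤ) (l : List ℕ) (i j : ℕ) : ℤ :=
  psi t [gt l 0, gt l 1, gt l 2] (gt l (3 + i)) (gt l (3 + j))

def Form (ψ : ℕ → ℕ → ℤ) (k : ℕ) : Prop :=
  List.Forall₂ (fun d p => (P4.m p d).testBit k = true) (tri6.map (dg ψ)) tS

theorem Sq_dg (t : ℕ → ℕ → ℕ → ℕ → ℤ) (l : List ℕ) :
    ((Sq l).map fun q => (SS t q.1 q.2 + 1).toNat) = tri6.map (dg (fm t l)) := by
  unfold Sq
  rw [List.map_map]
  apply List.map_congr_left
  intro I _
  show (SS t [gt l 0, gt l 1, gt l 2] (I.map fun i => gt l (3 + i)) + 1).toNat = dg (fm t l) I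
  unfold dg
  rw [SS_psi, ← cyc_map (psi t [gt l 0, gt l 1, gt l 2]) (fun i => gt l (3 + i)) I]
  rfl

theorem gt_mem {l : List ℕ} {i : ℕ} (h : i < l.length) : gt l i ∈ l := by
  unfold gt; rw [List.getD_eq_getElem _ _ h]; exact List.getElem_mem h

theorem gt_inj {l : List ℕ} (hl : l.Nodup) {i j : ℕ} (hi : i < l.length) (hj : j < l.length)
    (h : gt l i = gt l j) : i = j := by
  unfold gt at h
  rw [List.getD_eq_getElem _ _ hi, List.getD_eq_getElem _ _ hj] at h
  exact (List.Nodup.getElem_inj_iff hl).mp h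

theorem OK_map {l : List ℕ} (h : OK l) {I : List ℕ} (hI : I.Nodup) (hIl : ∀ i ∈ I, i < l.length) :
    OK (I.map (gt l)) := by
  refine ⟨?_, ?_⟩
  · apply List.Nodup.map_on _ hI
    intro x hx y hy e
    exact gt_inj h.1 (hIl x hx) (hIl y hy) e
  · intro x hx
    obtain ⟨i, hi, rfl⟩ := List.mem_map.mp hx
    exact h.2 _ (gt_mem (hIl i hi))

theorem tri6_ok : ∀ I ∈ tri6, ∃ i j k, I = [i, j, k] ∧ [i, j, k].Nodup ∧ i < 6 ∧ j < 6 ∧ k < 6 := by
  intro I hI
  simp only [tri6, List.mem_cons, List.not_mem_nil, or_false] at hI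
  rcases hI with h | h | h | h | h | h | h | h | h | h | h | h | h | h | h | h | h | h | h | h <;>
    subst h <;> exact ⟨_, _, _, rfl, by decide, by decide, by decide, by decide⟩

theorem tri5_ok' : ∀ I ∈ tri5, ∃ i j k, I = [i, j, k] ∧ [i, j, k].Nodup ∧ i < 5 ∧ j < 5 ∧ k < 5 := by
  intro I hI
  simp only [tri5, List.mem_cons, List.not_mem_nil, or_false] at hI
  rcases hI with h | h | h | h | h | h | h | h | h | h <;>
    subst h <;> exact ⟨_, _, _, rfl, by decide, by decide, by decide, by decide⟩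

theorem Sq_Tr2 {l : List ℕ} (hl : l.length = 9) (h : OK l) : ∀ q ∈ Sq l, Tr2 q := by
  intro q hq
  obtain ⟨I, hI, rfl⟩ := List.mem_map.mp hq
  obtain ⟨i, j, k, rfl, hn, h1, h2, h3⟩ := tri6_ok I hI
  refine ⟨gt l 0, gt l 1, gt l 2, gt l (3 + i), gt l (3 + j), gt l (3 + k), rfl, ?_⟩
  have := OK_map h (I := [0, 1, 2, 3 + i, 3 + j, 3 + k]) (by
    simp only [List.nodup_cons, List.mem_cons, List.not_mem_nil, or_false, not_or, not_false_eq_true,
      List.nodup_nil, and_true] at hn ⊢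
    omega) (by
    intro x hx
    simp only [List.mem_cons, List.not_mem_nil, or_false] at hx
    omega)
  exact this

theorem Good.fm_Bd (h : Good t) {l : List ℕ} (hl : l.length = 9) (hok : OK l) : Bd 6 (fm t l) := by
  apply h.Bd_psi 6 [gt l 0, gt l 1, gt l 2] (fun i => gt l (3 + i)) (by simp)
  · intro i hi; exact hok.2 _ (gt_mem (by omega))
  · intro i hi hmem
    simp only [List.mem_cons, List.not_mem_nil, or_false] at hmem
    rcases hmem with e | e | e
    · have := gt_inj hok.1 (by omega) (by omega) e; omega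
    · have := gt_inj hok.1 (by omega) (by omega) e; omega
    · have := gt_inj hok.1 (by omega) (by omega) e; omega
  · exact OK_map hok (I := [0, 1, 2]) (by decide) (by
      intro x hx; simp only [List.mem_cons, List.not_mem_nil, or_false] at hx; omega)
  · intro i hi j hj e
    have := gt_inj hok.1 (by omega) (by omega) e; omega

theorem Good.fm_form (h : Good t) {l : List ℕ} (hl : l.length = 9) (hok : OK l) :
    ∃ k, bS.testBit k = true ∧ Form (fm t l) k :=
  S_complete (fm t l) (h.fm_Bd hl hok).anti (h.fm_Bd hl hok).bd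

def okb (n : ℕ) (l : List ℕ) : Bool := Nat.beq l.length n && (decide l.Nodup && l.all fun x => Nat.blt x 9)

theorem okb_spec {n : ℕ} {l : List ℕ} (h : okb n l = true) : l.length = n ∧ OK l := by
  unfold okb at h
  rw [Bool.and_eq_true, Bool.and_eq_true, List.all_eq_true] at h
  refine ⟨Nat.eq_of_beq_eq_true h.1, of_decide_eq_true h.2.1, ?_⟩
  intro x hx
  have := h.2.2 x hx
  simpa [Nat.blt_eq] using this

theorem rowsS : ∀ c < 84, (okb 9 (sI.getD c []) && rowChk (tab.look c) (Sq (sI.getD c []))) = true := by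
  decide +kernel

theorem Good.hS (h : Good t) {c : ℕ} (hc : c < 84) {k : ℕ} (hk : Form (fm t (sI.getD c [])) k) :
    Match (Wt t) k (tab.look c) tS := by
  have := rowsS c hc
  rw [Bool.and_eq_true] at this
  obtain ⟨h1, h2⟩ := this
  obtain ⟨hl, hok⟩ := okb_spec h1
  apply h.match_of _ _ _ (rowChk_spec _ _ h2) (Sq_Tr2 hl hok)
  rw [Sq_dg]; exact hk

/-! ### rows of the (4,5) tables -/

def fac : List (List ℕ) := [[1, 2, 3], [0, 2, 3], [0, 1, 3], [0, 1, 2]]

def Fq (l : List ℕ) : List (List ℕ × List ℕ) :=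
  (tri5.map fun I => ([gt l 1, gt l 2, gt l 3], I.map fun i => gt l (4 + i))) ++
  ((tri5.map fun I => ([gt l 0, gt l 2, gt l 3], I.map fun i => gt l (4 + i))) ++
  ((tri5.map fun I => ([gt l 0, gt l 1, gt l 3], I.map fun i => gt l (4 + i))) ++
  (tri5.map fun I => ([gt l 0, gt l 1, gt l 2], I.map fun i => gt l (4 + i)))))

theorem part_dg (t : ℕ → ℕ → ℕ → ℕ → ℤ) (T : List ℕ) (l : List ℕ) :
    ((tri5.map fun I => (T, I.map fun i => gt l (4 + i))).map fun q => (SS t q.1 q.2 + 1).toNat) =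
      tri5.map (dg fun i j => psi t T (gt l (4 + i)) (gt l (4 + j))) := by
  rw [List.map_map]
  apply List.map_congr_left
  intro I _
  show (SS t T (I.map fun i => gt l (4 + i)) + 1).toNat = _
  unfold dg
  rw [SS_psi, ← cyc_map (psi t T) (fun i => gt l (4 + i)) I]

theorem part_Tr2 {l : List ℕ} (hl : l.length = 9) (h : OK l) (i0 i1 i2 : ℕ) (h0 : i0 < 4) (h1 : i1 < 4)
    (h2 : i2 < 4) (h01 : i0 ≠ i1) (h02 : i0 ≠ i2) (h12 : i1 ≠ i2) :
    ∀ q ∈ (tri5.map fun I => ([gt l i0, gt l i1, gt l i2], I.map fun i => gt l (4 + i))), Tr2 q := by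
  intro q hq
  obtain ⟨I, hI, rfl⟩ := List.mem_map.mp hq
  obtain ⟨i, j, k, rfl, hn, e1, e2, e3⟩ := tri5_ok' I hI
  refine ⟨gt l i0, gt l i1, gt l i2, gt l (4 + i), gt l (4 + j), gt l (4 + k), rfl, ?_⟩
  have := OK_map h (I := [i0, i1, i2, 4 + i, 4 + j, 4 + k]) (by
    simp only [List.nodup_cons, List.mem_cons, List.not_mem_nil, or_false, not_or, not_false_eq_true,
      List.nodup_nil, and_true] at hn ⊢
    omega) (by
    intro x hx
    simp only [List.mem_cons, List.not_mem_nil, or_false] at hx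
    omega)
  exact this

theorem Good.five_Bd (h : Good t) {l : List ℕ} (hl : l.length = 9) (hok : OK l) (J : List ℕ)
    (hJ : J.Nodup) (hJ3 : 3 ≤ J.length) (hJ4 : ∀ i ∈ J, i < 4) :
    Bd 5 (fun i j => psi t (J.map (gt l)) (gt l (4 + i)) (gt l (4 + j))) := by
  apply h.Bd_psi 5 (J.map (gt l)) (fun i => gt l (4 + i)) (by rw [List.length_map]; exact hJ3)
  · intro i hi; exact hok.2 _ (gt_mem (by omega))
  · intro i hi hmem
    obtain ⟨j, hj, e⟩ := List.mem_map.mp hmem
    have hj4 := hJ4 j hj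
    have := gt_inj hok.1 (by omega) (by omega) e; omega
  · exact OK_map hok hJ (fun i hi => by have := hJ4 i hi; omega)
  · intro i hi j hj e
    have := gt_inj hok.1 (by omega) (by omega) e; omega

theorem Good.fF (h : Good t) {l : List ℕ} (hl : l.length = 9) (hok : OK l) :
    ∃ k, bF.testBit k = true ∧ List.Forall₂ (fun d p => (P4.m p d).testBit k = true)
      ((Fq l).map fun q => (SS t q.1 q.2 + 1).toNat) tF := by
  have B := fun J h1 h2 h3 => h.five_Bd hl hok J h1 h2 h3
  have b0 := B [1, 2, 3] (by decide) (by decide) (by decide)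
  have b1 := B [0, 2, 3] (by decide) (by decide) (by decide)
  have b2 := B [0, 1, 3] (by decide) (by decide) (by decide)
  have b3 := B [0, 1, 2] (by decide) (by decide) (by decide)
  have b01 := B [1, 2, 0, 3] (by decide) (by decide) (by decide)
  have b02 := B [0, 1, 2, 3] (by decide) (by decide) (by decide)
  have b21 := B [0, 1, 3, 2] (by decide) (by decide) (by decide)
  have e3 : (fun i j => psi t ([0, 1, 2].map (gt l)) (gt l (4 + i)) (gt l (4 + j))) =
    fun i j => (psi t ([1, 2, 3].map (gt l)) (gt l (4 + i)) (gt l (4 + j)) +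
      psi t ([0, 1, 3].map (gt l)) (gt l (4 + i)) (gt l (4 + j))) -
      psi t ([0, 2, 3].map (gt l)) (gt l (4 + i)) (gt l (4 + j)) := by
    funext i j
    simp only [psi, List.map_cons, List.map_nil, cyc3]
    have q1 := h.a1 (gt l 3) (gt l 1) (gt l (4 + i)) (gt l (4 + j))
    have q2 := h.a1 (gt l 0) (gt l 2) (gt l (4 + i)) (gt l (4 + j))
    omega
  have e01 : (fun i j => psi t ([1, 2, 0, 3].map (gt l)) (gt l (4 + i)) (gt l (4 + j))) =
    fun i j => psi t ([1, 2, 3].map (gt l)) (gt l (4 + i)) (gt l (4 + j)) -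
      psi t ([0, 2, 3].map (gt l)) (gt l (4 + i)) (gt l (4 + j)) := by
    funext i j
    simp only [psi, List.map_cons, List.map_nil, cyc3, cyc4]
    have q1 := h.a1 (gt l 0) (gt l 2) (gt l (4 + i)) (gt l (4 + j))
    have q2 := h.a1 (gt l 0) (gt l 3) (gt l (4 + i)) (gt l (4 + j))
    omega
  have e02 : (fun i j => psi t ([0, 1, 2, 3].map (gt l)) (gt l (4 + i)) (gt l (4 + j))) =
    fun i j => psi t ([1, 2, 3].map (gt l)) (gt l (4 + i)) (gt l (4 + j)) +
      psi t ([0, 1, 3].map (gt l)) (gt l (4 + i)) (gt l (4 + j)) := by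
    funext i j
    simp only [psi, List.map_cons, List.map_nil, cyc3, cyc4]
    have q1 := h.a1 (gt l 1) (gt l 3) (gt l (4 + i)) (gt l (4 + j))
    omega
  have e21 : (fun i j => psi t ([0, 1, 3, 2].map (gt l)) (gt l (4 + i)) (gt l (4 + j))) =
    fun i j => psi t ([0, 1, 3].map (gt l)) (gt l (4 + i)) (gt l (4 + j)) -
      psi t ([0, 2, 3].map (gt l)) (gt l (4 + i)) (gt l (4 + j)) := by
    funext i j
    simp only [psi, List.map_cons, List.map_nil, cyc3, cyc4]
    have q1 := h.a1 (gt l 0) (gt l 2) (gt l (4 + i)) (gt l (4 + j))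
    have q2 := h.a1 (gt l 2) (gt l 3) (gt l (4 + i)) (gt l (4 + j))
    omega
  rw [e01] at b01
  rw [e02] at b02
  rw [e21] at b21
  rw [e3] at b3
  obtain ⟨k, k1, k2⟩ := F_complete b0 b1 b2 b01 b02 b21 b3
  refine ⟨k, k1, ?_⟩
  unfold Fq
  rw [List.map_append, List.map_append, List.map_append, part_dg, part_dg, part_dg, part_dg]
  rw [← e3] at k2
  exact k2

theorem rowsF : ∀ c < 126, (okb 9 (fI.getD c []) && rowChk (tab.look (84 + c)) (Fq (fI.getD c []))) = true := by
  decide +kernel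

theorem Good.hF (h : Good t) {c : ℕ} (h1 : 84 ≤ c) (h2 : c < 210) :
    ∃ k, bF.testBit k = true ∧ Match (Wt t) k (tab.look c) tF := by
  have := rowsF (c - 84) (by omega)
  rw [Bool.and_eq_true] at this
  obtain ⟨g1, g2⟩ := this
  obtain ⟨hl, hok⟩ := okb_spec g1
  rw [show 84 + (c - 84) = c by omega] at g2
  obtain ⟨k, k1, k2⟩ := h.fF hl hok
  refine ⟨k, k1, h.match_of _ _ _ (rowChk_spec _ _ g2) ?_ k2⟩
  unfold Fq
  intro q hq
  rw [List.mem_append, List.mem_append, List.mem_append] at hq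
  rcases hq with hq | hq | hq | hq
  · exact part_Tr2 hl hok 1 2 3 (by omega) (by omega) (by omega) (by omega) (by omega) (by omega) q hq
  · exact part_Tr2 hl hok 0 2 3 (by omega) (by omega) (by omega) (by omega) (by omega) (by omega) q hq
  · exact part_Tr2 hl hok 0 1 3 (by omega) (by omega) (by omega) (by omega) (by omega) (by omega) q hq
  · exact part_Tr2 hl hok 0 1 2 (by omega) (by omega) (by omega) (by omega) (by omega) (by omega) q hq

/-! ### parity rows -/

def Pq (l : List ℕ) : List (List ℕ × List ℕ) := tens.map fun q => (q.1.map (gt l), q.2.map (gt l))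

theorem rowsP : ∀ c < 84, (okb 6 (pI.getD c []) && rowChk (tab.look (210 + c)) (Pq (pI.getD c []))) = true := by
  decide +kernel

theorem tens_ok : ∀ q ∈ tens, ∃ a b c x y z, q = ([a, b, c], [x, y, z]) ∧ [a, b, c, x, y, z].Nodup ∧
    ∀ i ∈ [a, b, c, x, y, z], i < 6 := by
  intro q hq
  simp only [tens, List.mem_cons, List.not_mem_nil, or_false] at hq
  rcases hq with h | h | h | h | h | h | h | h | h | h <;>
    subst h <;> exact ⟨_, _, _, _, _, _, rfl, by decide, by decide⟩

theorem Pq_Tr2 {l : List ℕ} (hl : l.length = 6) (h : OK l) : ∀ q ∈ Pq l, Tr2 q := by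
  intro q hq
  obtain ⟨I, hI, rfl⟩ := List.mem_map.mp hq
  obtain ⟨a, b, c, x, y, z, rfl, hn, h6⟩ := tens_ok I hI
  refine ⟨gt l a, gt l b, gt l c, gt l x, gt l y, gt l z, rfl, ?_⟩
  exact OK_map h hn (fun i hi => by rw [hl]; exact h6 i hi)

theorem forall2_left {α β : Type*} {R : α → β → Prop} : ∀ {l : List α} {m : List β},
    List.Forall₂ R l m → ∀ a ∈ l, ∃ b, R a b
  | _, _, List.Forall₂.nil, a, ha => absurd ha List.not_mem_nil
  | _, _, List.Forall₂.cons h1 h2, a, ha => by
    rcases List.mem_cons.mp ha with rfl | ha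
    · exact ⟨_, h1⟩
    · exact forall2_left h2 a ha

theorem Good.par_sum (h : Good t) : ∀ (os : List ℕ) (qs : List (List ℕ × List ℕ)),
    List.Forall₂ RowRel os qs → (∀ q ∈ qs, Tr2 q) →
    (((os.map (zz (Wt t))).sum : ℕ) : ℤ) % 2 = ((qs.map fun q => SS t q.1 q.2).sum) % 2
  | [], [], _, _ => rfl
  | [], q :: qs, h1, _ => absurd h1 (by intro h; cases h)
  | o :: os, [], h1, _ => absurd h1 (by intro h; cases h)
  | o :: os, q :: qs, h1, h2 => by
    obtain ⟨r1, r2⟩ := List.forall₂_cons.mp h1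
    have ih := h.par_sum os qs r2 (fun q hq => h2 q (List.mem_cons_of_mem _ hq))
    obtain ⟨v, hv, ho, hv'⟩ := r1
    obtain ⟨a, b, c, x, y, z, rfl, hok⟩ := h2 _ List.mem_cons_self
    have hw := h.Wt_eq hok hv'
    have hb' := h.bd [a, b, c] [x, y, z] hok (by simp) (by simp)
    rw [abs_le] at hb'
    rw [List.map_cons, List.sum_cons, List.map_cons, List.sum_cons]
    have hz : zz (Wt t) o = if Wt t v = 1 then 0 else 1 := by
      unfold zz
      have : (o - 20) / 3 = v := by omega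
      rw [this]
    simp only
    rw [hz, Nat.cast_add]
    split_ifs with hc
    · rw [hw] at hc
      have : SS t [a, b, c] [x, y, z] = 0 := by omega
      rw [this, Nat.cast_zero]; omega
    · rw [hw] at hc
      have : SS t [a, b, c] [x, y, z] = 1 ∨ SS t [a, b, c] [x, y, z] = -1 := by omega
      rw [Nat.cast_one]
      rcases this with e | e <;> rw [e] <;> omega

theorem Good.hP (h : Good t) {c : ℕ} (h1 : 210 ≤ c) (h2 : c < 294) :
    (∀ o ∈ tab.look c, ∃ v < 840, o = 3 * v + 20) ∧ ((tab.look c).map (zz (Wt t))).sum % 2 = 1 := by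
  have := rowsP (c - 210) (by omega)
  rw [Bool.and_eq_true] at this
  obtain ⟨g1, g2⟩ := this
  obtain ⟨hl, hok⟩ := okb_spec g1
  rw [show 210 + (c - 210) = c by omega] at g2
  have F := rowChk_spec _ _ g2
  refine ⟨?_, ?_⟩
  · intro o ho
    obtain ⟨q, hq⟩ := forall2_left F o ho
    obtain ⟨v, hv, e, _⟩ := hq
    exact ⟨v, hv, e⟩
  · have e := h.par_sum _ _ F (Pq_Tr2 hl hok)
    have p := h.par _ hl hok
    have : (Pq (pI.getD (c - 210) [])).map (fun q => SS t q.1 q.2) =
      (tens.map fun q => SS t (q.1.map (gt (pI.getD (c - 210) []))) (q.2.map (gt (pI.getD (c - 210) [])))) := by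
      unfold Pq; rw [List.map_map]; rfl
    rw [this, p] at e
    omega

end Pool.Agent.Helper683.K9
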