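import Pool.Agent.Helper683.K9.Sym

set_option maxRecDepth 1000000
set_option maxHeartbeats 4000000

namespace Pool.Agent.Helper683.K9

/-- all values allowed -/
def full : ℕ := 2 ^ 2540 - 2 ^ 20

noncomputable def asg (D c k : ℕ) : ℕ := upd D (remv D (Nat.shiftLeft 1 k) (tab.look c) tS 0) 0

variable {W : ℕ → ℕ}

theorem sat_full (hW : ∀ v, W v < 3) : Sat W full := by
  intro v hv
  have hw := hW v
  have e : full = 2 ^ 20 * (2 ^ 2520 - 1) := by decide +kernel
  rw [e, Nat.testBit_two_pow_mul, Nat.testBit_two_pow_sub_one]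
  have h1 : decide (3 * v + 20 + W v ≥ 20) = true := decide_eq_true (by omega)
  have h2 : decide (3 * v + 20 + W v - 20 < 2520) = true := decide_eq_true (by omega)
  rw [h1, h2]; rfl

theorem sat_asg (hW : ∀ v, W v < 3) {D c k : ℕ} (hD : Sat W D) (hm : Match W k (tab.look c) tS) :
    Sat W (asg D c k) := by
  intro v hv
  apply upd_sound (by norm_num) (hD v hv)
  apply remv_sound hW (k := k) _ v _ _ 0 hm (Nat.zero_testBit _)
  show (1 <<< k).testBit k = true
  rw [Nat.testBit_shiftLeft]; simp

theorem gS_ok : ∀ p ∈ tS, GoodP 151 p := by unfold GoodP; decide +kernel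
theorem gF_ok : ∀ p ∈ tF, GoodP 2461 p := by unfold GoodP; decide +kernel

end Pool.Agent.Helper683.K9
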