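import Pool.Agent.Helper683.K9.SymData

set_option maxRecDepth 1000000
set_option maxHeartbeats 4000000

namespace Pool.Agent.Helper683.K9

variable {t : ℕ → ℕ → ℕ → ℕ → ℤ}

/-! ### relabelling -/

def rl (t : ℕ → ℕ → ℕ → ℕ → ℤ) (s : ℤ) (l : List ℕ) : ℕ → ℕ → ℕ → ℕ → ℤ :=
  fun a b x y => s * t (gt l a) (gt l b) (gt l x) (gt l y)

theorem SS_rl (s : ℤ) (l C D : List ℕ) : SS (rl t s l) C D = s * SS t (C.map (gt l)) (D.map (gt l)) := by
  unfold SS rl
  have : (fun x y => cyc (fun a b => s * t (gt l a) (gt l b) (gt l x) (gt l y)) C) =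
      fun x y => s * (fun x y => cyc (fun a b => t a b x y) (C.map (gt l))) (gt l x) (gt l y) := by
    funext x y
    rw [cyc_smul, cyc_map (fun a b => t a b (gt l x) (gt l y)) (gt l) C]
  rw [this, cyc_smul, cyc_map (fun x y => cyc (fun a b => t a b x y) (C.map (gt l))) (gt l) D]

theorem psi_rl (s : ℤ) (l C : List ℕ) (x y : ℕ) :
    psi (rl t s l) C x y = s * psi t (C.map (gt l)) (gt l x) (gt l y) := by
  unfold psi rl
  rw [cyc_smul, cyc_map (fun a b => t a b (gt l x) (gt l y)) (gt l) C]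

theorem gt_map {l m : List ℕ} {i : ℕ} (hi : i < m.length) : gt (m.map (gt l)) i = gt l (gt m i) := by
  unfold gt
  rw [List.getD_eq_getElem _ _ (by rw [List.length_map]; exact hi), List.getElem_map,
    List.getD_eq_getElem m _ hi]

theorem OK_comp {l C : List ℕ} (hl : l.length = 9) (hok : OK l) (hC : OK C) : OK (C.map (gt l)) :=
  OK_map hok hC.1 (fun i hi => by rw [hl]; exact hC.2 i hi)

theorem Good.rl (h : Good t) {s : ℤ} (hs : s = 1 ∨ s = -1) {l : List ℕ} (hl : l.length = 9)
    (hok : OK l) : Good (rl t s l) where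
  a1 a b x y := by
    unfold K9.rl; rw [h.a1]; ring
  a2 a b x y := by
    unfold K9.rl; rw [h.a2]; ring
  sym a b c x y z ho := by
    rw [SS_rl, SS_rl]
    congr 1
    simp only [List.map_cons, List.map_nil]
    apply h.sym
    exact OK_comp hl hok ho
  par m hm ho := by
    have : (tens.map fun q => SS (K9.rl t s l) (q.1.map (gt m)) (q.2.map (gt m))) =
      (tens.map fun q => s * SS t (q.1.map (gt (m.map (gt l)))) (q.2.map (gt (m.map (gt l))))) := by
      apply List.map_congr_left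
      intro q hq
      obtain ⟨a, b, c, x, y, z, rfl, _, h6⟩ := tens_ok q hq
      rw [SS_rl]
      simp only [List.map_cons, List.map_nil]
      rw [gt_map (hm ▸ h6 a (by simp)), gt_map (hm ▸ h6 b (by simp)), gt_map (hm ▸ h6 c (by simp)),
        gt_map (hm ▸ h6 x (by simp)), gt_map (hm ▸ h6 y (by simp)), gt_map (hm ▸ h6 z (by simp))]
    rw [this]
    have p := h.par (m.map (gt l)) (by rw [List.length_map]; exact hm) (OK_comp hl hok ho)
    rw [List.sum_map_mul_left]
    rcases hs with rfl | rfl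
    · rw [one_mul]; exact p
    · omega
  bd C D ho hC hD := by
    rw [SS_rl]
    have := h.bd (C.map (gt l)) (D.map (gt l)) (by rw [← List.map_append]; exact OK_comp hl hok ho)
      (by rw [List.length_map]; exact hC) (by rw [List.length_map]; exact hD)
    rcases hs with rfl | rfl
    · rw [one_mul]; exact this
    · rw [neg_one_mul, abs_neg]; exact this

/-! ### digits of forms -/

def td (k : ℕ) (p : P4) : ℕ := cond (p.m0.testBit k) 0 (cond (p.m1.testBit k) 1 2)

theorem excl : ∀ p ∈ tS, p.m0 &&& p.m1 = 0 ∧ p.m0 &&& p.m2 = 0 ∧ p.m1 &&& p.m2 = 0 := by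
  decide +kernel

theorem td_of {p : P4} (hp : p ∈ tS) {d k : ℕ} (hd : d < 3) (h : (P4.m p d).testBit k = true) :
    d = td k p := by
  obtain ⟨h1, h2, h3⟩ := excl p hp
  have z : ∀ {m m' : ℕ}, m &&& m' = 0 → m.testBit k = true → m'.testBit k = true → False := by
    intro m m' e a b
    have : (m &&& m').testBit k = true := by rw [Nat.testBit_and, a, b]; rfl
    rw [e, Nat.zero_testBit] at this
    exact absurd this (by decide)
  unfold td
  interval_cases d
  · rw [show P4.m p 0 = p.m0 from rfl] at h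
    rw [h, cond_true]
  · rw [show P4.m p 1 = p.m1 from rfl] at h
    cases h0 : p.m0.testBit k
    · rw [cond_false, h, cond_true]
    · exact (z h1 h0 h).elim
  · rw [show P4.m p 2 = p.m2 from rfl] at h
    cases h0 : p.m0.testBit k
    · cases h4 : p.m1.testBit k
      · rfl
      · exact (z h3 h4 h).elim
    · exact (z h2 h0 h).elim

theorem forall2_td {k : ℕ} : ∀ (ds : List ℕ) (ps : List P4), (∀ p ∈ ps, p ∈ tS) → (∀ d ∈ ds, d < 3) →
    List.Forall₂ (fun d p => (P4.m p d).testBit k = true) ds ps → ds = ps.map (td k)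
  | [], [], _, _, _ => rfl
  | [], p :: ps, _, _, h => absurd h (by intro h; cases h)
  | d :: ds, [], _, _, h => absurd h (by intro h; cases h)
  | d :: ds, p :: ps, hp, hd, h => by
    obtain ⟨h1, h2⟩ := List.forall₂_cons.mp h
    rw [List.map_cons, ← td_of (hp p List.mem_cons_self) (hd d List.mem_cons_self) h1,
      ← forall2_td ds ps (fun q hq => hp q (List.mem_cons_of_mem _ hq))
        (fun q hq => hd q (List.mem_cons_of_mem _ hq)) h2]

theorem forall2_of_td {k : ℕ} : ∀ (ps : List P4), (∀ p ∈ ps, (P4.m p (td k p)).testBit k = true) →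
    List.Forall₂ (fun d p => (P4.m p d).testBit k = true) (ps.map (td k)) ps
  | [], _ => List.Forall₂.nil
  | p :: ps, h => List.Forall₂.cons (h p List.mem_cons_self)
      (forall2_of_td ps (fun q hq => h q (List.mem_cons_of_mem _ hq)))

theorem Form.eq {ψ : ℕ → ℕ → ℤ} (h : Bd 6 ψ) {k : ℕ} (hk : Form ψ k) :
    tri6.map (dg ψ) = tS.map (td k) := by
  apply forall2_td _ _ (fun p hp => hp) _ hk
  intro d hd
  obtain ⟨I, hI, rfl⟩ := List.mem_map.mp hd
  obtain ⟨i, j, l, rfl, hn, h1, h2, h3⟩ := tri6_ok I hI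
  apply dg_lt
  apply h.bd _ hn _ (by simp)
  intro x hx
  simp only [List.mem_cons, List.not_mem_nil, or_false] at hx
  omega

def ix (i j : ℕ) : ℕ := [[0,0,0,0,0,0],[0,0,0,1,2,3],[0,0,0,4,5,6],[0,0,0,0,7,8],[0,0,0,0,0,9]].getD i [] |>.getD j 0

/-- the gauged form with digits of tuple `k` -/
def Gk (k i j : ℕ) : ℤ :=
  cond (Nat.beq i 0 || (Nat.beq j 0 || Nat.beq i j)) 0
    (cond (Nat.blt i j) (((tS.map (td k)).getD (ix i j) 0 : ℕ) - 1 : ℤ)
      (1 - ((tS.map (td k)).getD (ix j i) 0 : ℕ) : ℤ))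

theorem Gk_eq {ψ : ℕ → ℕ → ℤ} (ha : ∀ x y, ψ y x = - ψ x y) (h : Bd 6 ψ) {k : ℕ}
    (hk : Form ψ k) {i j : ℕ} (hi : i < 6) (hj : j < 6) : cyc ψ [0, i, j] = Gk k i j := by
  have E := hk.eq h
  have key : ∀ n, (tri6.map (dg ψ)).getD n 0 = (tS.map (td k)).getD n 0 := by intro n; rw [E]
  have z : ∀ x, ψ x x = 0 := fun x => by have := ha x x; omega
  have low : ∀ i j, i < j → 0 < i → j < 6 → cyc ψ [0, i, j] =
      (((tS.map (td k)).getD (ix i j) 0 : ℕ) - 1 : ℤ) := by
    intro i j hij h0 hj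
    rw [← key]
    have hb := h.bd [0, i, j] (by
      simp only [List.nodup_cons, List.mem_cons, List.not_mem_nil, or_false, not_or, not_false_eq_true,
        List.nodup_nil, and_true]; omega) (by
      intro x hx
      simp only [List.mem_cons, List.not_mem_nil, or_false] at hx
      omega) (by simp)
    rw [abs_le] at hb
    have e : (tri6.map (dg ψ)).getD (ix i j) 0 = dg ψ [0, i, j] := by
      interval_cases j <;> interval_cases i <;> rfl
    rw [e]
    unfold dg
    omega
  unfold Gk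
  cases h0 : (Nat.beq i 0 || (Nat.beq j 0 || Nat.beq i j))
  · rw [cond_false]
    rw [Bool.or_eq_false_iff, Bool.or_eq_false_iff] at h0
    have n1 := Nat.ne_of_beq_eq_false h0.1
    have n2 := Nat.ne_of_beq_eq_false h0.2.1
    have n3 := Nat.ne_of_beq_eq_false h0.2.2
    cases h4 : Nat.blt i j
    · rw [cond_false]
      have hji : j < i := by
        have : ¬ i < j := by
          intro hh
          have := Nat.blt_eq.mpr hh
          rw [h4] at this; exact absurd this (by decide)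
        omega
      have := low j i hji (by omega) hi
      rw [cyc3] at this ⊢
      have a1 := ha 0 i
      have a2 := ha 0 j
      have a3 := ha i j
      omega
    · rw [cond_true]
      exact low i j (Nat.blt_eq.mp h4) (by omega) hj
  · rw [cond_true]
    rw [Bool.or_eq_true, Bool.or_eq_true] at h0
    rw [cyc3]
    rcases h0 with h0 | h0 | h0
    · have := Nat.eq_of_beq_eq_true h0
      subst this
      have := ha 0 j; have := z 0; omega
    · have := Nat.eq_of_beq_eq_true h0
      subst this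
      have := ha 0 i; have := z 0; omega
    · have := Nat.eq_of_beq_eq_true h0
      subst this
      have := ha 0 i; have := z i; omega

theorem cyc_Gk {ψ : ℕ → ℕ → ℤ} (ha : ∀ x y, ψ y x = - ψ x y) (h : Bd 6 ψ) {k : ℕ}
    (hk : Form ψ k) {i j l : ℕ} (hi : i < 6) (hj : j < 6) (hl : l < 6) :
    cyc ψ [i, j, l] = cyc (Gk k) [i, j, l] := by
  rw [cyc3, cyc3, ← Gk_eq ha h hk hi hj, ← Gk_eq ha h hk hj hl, ← Gk_eq ha h hk hl hi,
    cyc3, cyc3, cyc3]
  have := ha 0 i; have := ha 0 j; have := ha 0 l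
  omega

/-- sign of the permutation taking `0 1 2` to `a b c` -/
def ep (a b c : ℕ) : ℤ :=
  cond (Nat.beq (a + 3 * b + 9 * c) 21 || (Nat.beq (a + 3 * b + 9 * c) 7 || Nat.beq (a + 3 * b + 9 * c) 11)) 1
    (cond (Nat.beq (a + 3 * b + 9 * c) 19 || (Nat.beq (a + 3 * b + 9 * c) 15 || Nat.beq (a + 3 * b + 9 * c) 5)) (-1) 0)

theorem ep_spec (h : Good t) (l : List ℕ) (x y : ℕ) : ∀ a < 3, ∀ b < 3, ∀ c < 3, ep a b c ≠ 0 →
    psi t [gt l a, gt l b, gt l c] x y = ep a b c * psi t [gt l 0, gt l 1, gt l 2] x y := by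
  intro a ha b hb c hc hne
  have e1 := h.a1 (gt l 0) (gt l 1) x y
  have e2 := h.a1 (gt l 0) (gt l 2) x y
  have e3 := h.a1 (gt l 1) (gt l 2) x y
  interval_cases a <;> interval_cases b <;> interval_cases c <;>
    first
      | (exfalso; exact hne (by decide))
      | (rw [show ep 0 1 2 = 1 by decide]; unfold psi; simp only [cyc3]; omega)
      | (rw [show ep 1 2 0 = 1 by decide]; unfold psi; simp only [cyc3]; omega)
      | (rw [show ep 2 0 1 = 1 by decide]; unfold psi; simp only [cyc3]; omega)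
      | (rw [show ep 1 0 2 = -1 by decide]; unfold psi; simp only [cyc3]; omega)
      | (rw [show ep 0 2 1 = -1 by decide]; unfold psi; simp only [cyc3]; omega)
      | (rw [show ep 2 1 0 = -1 by decide]; unfold psi; simp only [cyc3]; omega)

/-- the permutation `τ` of positions (keeping the first three together) takes form `k` to `k'` -/
def chkT (k : ℕ) (s : ℤ) (τ : List ℕ) (k' : ℕ) : Bool :=
  (okb 9 τ && (Nat.blt (gt τ 0) 3 && (Nat.blt (gt τ 1) 3 && Nat.blt (gt τ 2) 3))) &&
  ((decide (ep (gt τ 0) (gt τ 1) (gt τ 2) = 1) || decide (ep (gt τ 0) (gt τ 1) (gt τ 2) = -1)) &&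
  ((List.range 6).all (fun i => Nat.ble 3 (gt τ (3 + i))) &&
  (decide (tri6.map (fun I => (s * (ep (gt τ 0) (gt τ 1) (gt τ 2) *
      cyc (Gk k) (I.map fun i => gt τ (3 + i) - 3)) + 1).toNat) = tS.map (td k')) &&
   tS.all (fun p => (P4.m p (td k' p)).testBit k'))))

theorem chkT_spec (h : Good t) {l : List ℕ} (hl : l.length = 9) (hok : OK l) {k k' : ℕ} {s : ℤ}
    {τ : List ℕ} (hc : chkT k s τ k' = true) (hk : Form (fm t l) k) {χ : ℕ → ℕ → ℤ}
    (hχ : ∀ i < 6, ∀ j < 6, χ i j = s * fm t (τ.map (gt l)) i j) : Form χ k' := by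
  unfold chkT at hc
  rw [Bool.and_eq_true, Bool.and_eq_true, Bool.and_eq_true, Bool.and_eq_true, Bool.and_eq_true,
    Bool.and_eq_true, Bool.and_eq_true, List.all_eq_true, List.all_eq_true] at hc
  obtain ⟨⟨hτ, h0, h1, h2⟩, hep, h3, hd, hm⟩ := hc
  obtain ⟨hτl, hτok⟩ := okb_spec hτ
  rw [Nat.blt_eq] at h0 h1 h2
  have hep' : ep (gt τ 0) (gt τ 1) (gt τ 2) ≠ 0 := by
    rw [Bool.or_eq_true, decide_eq_true_eq, decide_eq_true_eq] at hep
    rcases hep with e | e <;> rw [e] <;> decide
  have hb : Bd 6 (fm t l) := h.fm_Bd hl hok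
  have ha : ∀ x y, fm t l y x = - fm t l x y := fun x y => h.psi_anti _ _ _
  have hfm : ∀ i < 6, ∀ j < 6, fm t (τ.map (gt l)) i j = ep (gt τ 0) (gt τ 1) (gt τ 2) *
      fm t l (gt τ (3 + i) - 3) (gt τ (3 + j) - 3) := by
    intro i hi j hj
    have hi3 : 3 ≤ gt τ (3 + i) := Nat.ble_eq.mp (h3 i (List.mem_range.mpr hi))
    have hj3 : 3 ≤ gt τ (3 + j) := Nat.ble_eq.mp (h3 j (List.mem_range.mpr hj))
    unfold fm
    rw [gt_map (by omega), gt_map (by omega), gt_map (by omega), gt_map (by omega), gt_map (by omega),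
      ep_spec h l _ _ _ h0 _ h1 _ h2 hep']
    rw [show 3 + (gt τ (3 + i) - 3) = gt τ (3 + i) by omega,
      show 3 + (gt τ (3 + j) - 3) = gt τ (3 + j) by omega]
  have key : tri6.map (dg χ) = tS.map (td k') := by
    rw [← of_decide_eq_true hd]
    apply List.map_congr_left
    intro I hI
    obtain ⟨i, j, l', rfl, hn, e1, e2, e3⟩ := tri6_ok I hI
    have hlt : ∀ i < 6, gt τ (3 + i) - 3 < 6 := by
      intro i hi
      have := hτok.2 _ (gt_mem (l := τ) (i := 3 + i) (by omega))
      omega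
    unfold dg
    congr 2
    rw [cyc3, hχ i e1 j e2, hχ j e2 l' e3, hχ l' e3 i e1, hfm i e1 j e2, hfm j e2 l' e3, hfm l' e3 i e1]
    simp only [List.map_cons, List.map_nil]
    rw [← cyc_Gk ha hb hk (hlt i e1) (hlt j e2) (hlt l' e3), cyc3]
    ring
  unfold Form
  rw [key]
  exact forall2_of_td tS hm

theorem tab1_ok : ∀ q ∈ tab1, chkT q.1 1 q.2 k0 = true := by decide +kernel
theorem tab1B_ok : ∀ q ∈ tab1B, chkT q.1 1 q.2 kB = true := by decide +kernel
theorem tab1_all : ∀ k < 171, b2.testBit k = true → (tab1.any fun q => Nat.beq q.1 k) = true := by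
  decide +kernel
theorem tab1B_all : ∀ k < 171, b1.testBit k = true → k ≠ kZ → (tab1B.any fun q => Nat.beq q.1 k) = true := by
  decide +kernel

end Pool.Agent.Helper683.K9
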