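import Pool.Agent.Helper683.K9.Rows

set_option maxRecDepth 1000000
set_option maxHeartbeats 4000000

namespace Pool.Agent.Helper683.K9

def b1 : ℕ := 0x401004088104109408be88148410408810040100000
def b2 : ℕ := 0x3feffbf77efbef6bf74177eb7befbf77effbfe00000
/-- canonical forms -/
def k0 : ℕ := 128
def kB : ℕ := 110
def kA1 : ℕ := 110
def kA2 : ℕ := 145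
def kA3 : ℕ := 152
def kZ : ℕ := 95
def tab1 : List (ℕ × List ℕ) := [
  (21, [1, 0, 2, 8, 3, 4, 5, 6, 7]),
  (22, [0, 1, 2, 3, 4, 8, 5, 6, 7]),
  (23, [1, 0, 2, 8, 3, 5, 4, 6, 7]),
  (24, [0, 1, 2, 8, 6, 7, 3, 4, 5]),
  (25, [0, 1, 2, 3, 5, 8, 4, 6, 7]),
  (26, [1, 0, 2, 3, 6, 7, 4, 5, 8]),
  (27, [1, 0, 2, 8, 3, 6, 4, 5, 7]),
  (28, [0, 1, 2, 8, 5, 7, 3, 4, 6]),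
  (29, [0, 1, 2, 8, 4, 7, 3, 5, 6]),
  (31, [1, 0, 2, 7, 4, 8, 3, 5, 6]),
  (32, [1, 0, 2, 7, 5, 8, 3, 4, 6]),
  (33, [0, 1, 2, 7, 3, 6, 4, 5, 8]),
  (34, [0, 1, 2, 3, 6, 8, 4, 5, 7]),
  (35, [1, 0, 2, 3, 5, 7, 4, 6, 8]),
  (36, [1, 0, 2, 7, 6, 8, 3, 4, 5]),
  (37, [0, 1, 2, 7, 3, 5, 4, 6, 8]),
  (38, [1, 0, 2, 3, 4, 7, 5, 6, 8]),
  (39, [0, 1, 2, 7, 3, 4, 5, 6, 8]),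
  (41, [0, 1, 2, 3, 7, 8, 4, 5, 6]),
  (42, [1, 0, 2, 3, 5, 6, 4, 7, 8]),
  (43, [1, 0, 2, 6, 7, 8, 3, 4, 5]),
  (44, [0, 1, 2, 6, 3, 5, 4, 7, 8]),
  (45, [1, 0, 2, 3, 4, 6, 5, 7, 8]),
  (46, [0, 1, 2, 6, 3, 4, 5, 7, 8]),
  (48, [1, 0, 2, 8, 3, 7, 4, 5, 6]),
  (49, [0, 1, 2, 8, 5, 6, 3, 4, 7]),
  (50, [0, 1, 2, 8, 4, 6, 3, 5, 7]),
  (52, [1, 0, 2, 6, 4, 8, 3, 5, 7]),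
  (53, [1, 0, 2, 6, 5, 8, 3, 4, 7]),
  (54, [0, 1, 2, 6, 3, 7, 4, 5, 8]),
  (55, [1, 0, 2, 7, 3, 8, 4, 5, 6]),
  (56, [0, 1, 2, 7, 5, 6, 3, 4, 8]),
  (57, [0, 1, 2, 7, 4, 6, 3, 5, 8]),
  (59, [1, 0, 2, 6, 4, 7, 3, 5, 8]),
  (60, [1, 0, 2, 6, 5, 7, 3, 4, 8]),
  (61, [0, 1, 2, 6, 3, 8, 4, 5, 7]),
  (62, [1, 0, 2, 3, 4, 5, 6, 7, 8]),
  (63, [0, 1, 2, 5, 3, 4, 6, 7, 8]),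
  (65, [1, 0, 2, 5, 7, 8, 3, 4, 6]),
  (66, [0, 1, 2, 5, 3, 6, 4, 7, 8]),
  (67, [1, 0, 2, 5, 6, 8, 3, 4, 7]),
  (68, [0, 1, 2, 5, 3, 7, 4, 6, 8]),
  (69, [0, 1, 2, 8, 4, 5, 3, 6, 7]),
  (71, [1, 0, 2, 5, 4, 8, 3, 6, 7]),
  (72, [1, 0, 2, 5, 6, 7, 3, 4, 8]),
  (73, [0, 1, 2, 5, 3, 8, 4, 6, 7]),
  (74, [0, 1, 2, 7, 4, 5, 3, 6, 8]),
  (76, [1, 0, 2, 5, 4, 7, 3, 6, 8]),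
  (77, [0, 1, 2, 6, 4, 5, 3, 7, 8]),
  (79, [1, 0, 2, 5, 4, 6, 3, 7, 8]),
  (81, [0, 1, 2, 4, 3, 5, 6, 7, 8]),
  (82, [0, 1, 2, 4, 3, 6, 5, 7, 8]),
  (83, [1, 0, 2, 4, 7, 8, 3, 5, 6]),
  (84, [0, 1, 2, 4, 3, 7, 5, 6, 8]),
  (85, [1, 0, 2, 4, 6, 8, 3, 5, 7]),
  (86, [1, 0, 2, 4, 5, 8, 3, 6, 7]),
  (88, [0, 1, 2, 4, 3, 8, 5, 6, 7]),
  (89, [1, 0, 2, 4, 6, 7, 3, 5, 8]),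
  (90, [1, 0, 2, 4, 5, 7, 3, 6, 8]),
  (92, [1, 0, 2, 4, 5, 6, 3, 7, 8]),
  (98, [0, 1, 2, 4, 5, 6, 3, 7, 8]),
  (100, [0, 1, 2, 4, 5, 7, 3, 6, 8]),
  (101, [0, 1, 2, 4, 6, 7, 3, 5, 8]),
  (102, [1, 0, 2, 4, 3, 8, 5, 6, 7]),
  (104, [0, 1, 2, 4, 5, 8, 3, 6, 7]),
  (105, [0, 1, 2, 4, 6, 8, 3, 5, 7]),
  (106, [1, 0, 2, 4, 3, 7, 5, 6, 8]),
  (107, [0, 1, 2, 4, 7, 8, 3, 5, 6]),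
  (108, [1, 0, 2, 4, 3, 6, 5, 7, 8]),
  (109, [1, 0, 2, 4, 3, 5, 6, 7, 8]),
  (111, [0, 1, 2, 5, 4, 6, 3, 7, 8]),
  (113, [1, 0, 2, 6, 4, 5, 3, 7, 8]),
  (114, [0, 1, 2, 5, 4, 7, 3, 6, 8]),
  (116, [1, 0, 2, 7, 4, 5, 3, 6, 8]),
  (117, [1, 0, 2, 5, 3, 8, 4, 6, 7]),
  (118, [0, 1, 2, 5, 6, 7, 3, 4, 8]),
  (119, [0, 1, 2, 5, 4, 8, 3, 6, 7]),
  (121, [1, 0, 2, 8, 4, 5, 3, 6, 7]),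
  (122, [1, 0, 2, 5, 3, 7, 4, 6, 8]),
  (123, [0, 1, 2, 5, 6, 8, 3, 4, 7]),
  (124, [1, 0, 2, 5, 3, 6, 4, 7, 8]),
  (125, [0, 1, 2, 5, 7, 8, 3, 4, 6]),
  (127, [1, 0, 2, 5, 3, 4, 6, 7, 8]),
  (128, [0, 1, 2, 3, 4, 5, 6, 7, 8]),
  (129, [1, 0, 2, 6, 3, 8, 4, 5, 7]),
  (130, [0, 1, 2, 6, 5, 7, 3, 4, 8]),
  (131, [0, 1, 2, 6, 4, 7, 3, 5, 8]),
  (133, [1, 0, 2, 7, 4, 6, 3, 5, 8]),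
  (134, [1, 0, 2, 7, 5, 6, 3, 4, 8]),
  (135, [0, 1, 2, 7, 3, 8, 4, 5, 6]),
  (136, [1, 0, 2, 6, 3, 7, 4, 5, 8]),
  (137, [0, 1, 2, 6, 5, 8, 3, 4, 7]),
  (138, [0, 1, 2, 6, 4, 8, 3, 5, 7]),
  (140, [1, 0, 2, 8, 4, 6, 3, 5, 7]),
  (141, [1, 0, 2, 8, 5, 6, 3, 4, 7]),
  (142, [0, 1, 2, 8, 3, 7, 4, 5, 6]),
  (144, [1, 0, 2, 6, 3, 4, 5, 7, 8]),
  (145, [0, 1, 2, 3, 4, 6, 5, 7, 8]),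
  (146, [1, 0, 2, 6, 3, 5, 4, 7, 8]),
  (147, [0, 1, 2, 6, 7, 8, 3, 4, 5]),
  (148, [0, 1, 2, 3, 5, 6, 4, 7, 8]),
  (149, [1, 0, 2, 3, 7, 8, 4, 5, 6]),
  (151, [1, 0, 2, 7, 3, 4, 5, 6, 8]),
  (152, [0, 1, 2, 3, 4, 7, 5, 6, 8]),
  (153, [1, 0, 2, 7, 3, 5, 4, 6, 8]),
  (154, [0, 1, 2, 7, 6, 8, 3, 4, 5]),
  (155, [0, 1, 2, 3, 5, 7, 4, 6, 8]),
  (156, [1, 0, 2, 3, 6, 8, 4, 5, 7]),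
  (157, [1, 0, 2, 7, 3, 6, 4, 5, 8]),
  (158, [0, 1, 2, 7, 5, 8, 3, 4, 6]),
  (159, [0, 1, 2, 7, 4, 8, 3, 5, 6]),
  (161, [1, 0, 2, 8, 4, 7, 3, 5, 6]),
  (162, [1, 0, 2, 8, 5, 7, 3, 4, 6]),
  (163, [0, 1, 2, 8, 3, 6, 4, 5, 7]),
  (164, [0, 1, 2, 3, 6, 7, 4, 5, 8]),
  (165, [1, 0, 2, 3, 5, 8, 4, 6, 7]),
  (166, [1, 0, 2, 8, 6, 7, 3, 4, 5]),
  (167, [0, 1, 2, 8, 3, 5, 4, 6, 7]),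
  (168, [1, 0, 2, 3, 4, 8, 5, 6, 7]),
  (169, [0, 1, 2, 8, 3, 4, 5, 6, 7])]
def tab1B : List (ℕ × List ℕ) := [
  (20, [0, 1, 2, 3, 8, 4, 5, 6, 7]),
  (30, [0, 1, 2, 8, 7, 3, 4, 5, 6]),
  (40, [0, 1, 2, 7, 3, 4, 5, 6, 8]),
  (47, [0, 1, 2, 6, 3, 4, 5, 7, 8]),
  (51, [0, 1, 2, 8, 6, 3, 4, 5, 7]),
  (58, [0, 1, 2, 7, 6, 3, 4, 5, 8]),
  (64, [0, 1, 2, 5, 3, 4, 6, 7, 8]),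
  (70, [0, 1, 2, 8, 5, 3, 4, 6, 7]),
  (75, [0, 1, 2, 7, 5, 3, 4, 6, 8]),
  (78, [0, 1, 2, 6, 5, 3, 4, 7, 8]),
  (80, [0, 1, 2, 4, 3, 5, 6, 7, 8]),
  (87, [0, 1, 2, 8, 4, 3, 5, 6, 7]),
  (91, [0, 1, 2, 7, 4, 3, 5, 6, 8]),
  (93, [0, 1, 2, 6, 4, 3, 5, 7, 8]),
  (94, [0, 1, 2, 5, 4, 3, 6, 7, 8]),
  (96, [0, 1, 2, 4, 5, 3, 6, 7, 8]),
  (97, [0, 1, 2, 4, 6, 3, 5, 7, 8]),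
  (99, [0, 1, 2, 4, 7, 3, 5, 6, 8]),
  (103, [0, 1, 2, 4, 8, 3, 5, 6, 7]),
  (110, [0, 1, 2, 3, 4, 5, 6, 7, 8]),
  (112, [0, 1, 2, 5, 6, 3, 4, 7, 8]),
  (115, [0, 1, 2, 5, 7, 3, 4, 6, 8]),
  (120, [0, 1, 2, 5, 8, 3, 4, 6, 7]),
  (126, [0, 1, 2, 3, 5, 4, 6, 7, 8]),
  (132, [0, 1, 2, 6, 7, 3, 4, 5, 8]),
  (139, [0, 1, 2, 6, 8, 3, 4, 5, 7]),
  (143, [0, 1, 2, 3, 6, 4, 5, 7, 8]),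
  (150, [0, 1, 2, 3, 7, 4, 5, 6, 8]),
  (160, [0, 1, 2, 7, 8, 3, 4, 5, 6]),
  (170, [0, 1, 2, 8, 3, 4, 5, 6, 7])]
def tab2 : List (ℕ × ℤ × List ℕ × List ℕ × ℕ) := [
  (22, 1, [0, 1, 2, 3, 4, 5, 6, 8, 7], [0, 1, 2, 3, 4, 5, 6, 8, 7], 152),
  (35, -1, [0, 2, 1, 3, 4, 5, 6, 7, 8], [0, 1, 2, 3, 5, 4, 6, 7, 8], 152),
  (42, -1, [0, 2, 1, 3, 4, 5, 6, 7, 8], [0, 1, 2, 3, 5, 4, 6, 7, 8], 145),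
  (64, -1, [0, 2, 1, 3, 4, 5, 6, 7, 8], [0, 1, 2, 3, 5, 4, 6, 7, 8], 110),
  (66, 1, [2, 0, 1, 3, 4, 5, 6, 7, 8], [0, 1, 2, 5, 3, 4, 6, 7, 8], 145),
  (68, 1, [2, 0, 1, 3, 4, 5, 6, 7, 8], [0, 1, 2, 5, 3, 4, 6, 7, 8], 152),
  (71, -1, [2, 1, 0, 3, 4, 5, 6, 8, 7], [0, 1, 2, 5, 4, 3, 6, 8, 7], 152),
  (73, 1, [2, 0, 1, 3, 4, 5, 6, 8, 7], [0, 1, 2, 5, 3, 4, 6, 8, 7], 152),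
  (76, -1, [2, 1, 0, 3, 4, 5, 6, 7, 8], [0, 1, 2, 5, 4, 3, 6, 7, 8], 152),
  (79, -1, [2, 1, 0, 3, 4, 5, 6, 7, 8], [0, 1, 2, 5, 4, 3, 6, 7, 8], 145),
  (96, 1, [1, 2, 0, 3, 4, 5, 6, 7, 8], [0, 1, 2, 4, 5, 3, 6, 7, 8], 110),
  (98, 1, [1, 2, 0, 3, 4, 5, 6, 7, 8], [0, 1, 2, 4, 5, 3, 6, 7, 8], 145),
  (100, 1, [1, 2, 0, 3, 4, 5, 6, 7, 8], [0, 1, 2, 4, 5, 3, 6, 7, 8], 152),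
  (102, -1, [1, 0, 2, 3, 4, 5, 6, 8, 7], [0, 1, 2, 4, 3, 5, 6, 8, 7], 152),
  (104, 1, [1, 2, 0, 3, 4, 5, 6, 8, 7], [0, 1, 2, 4, 5, 3, 6, 8, 7], 152),
  (106, -1, [1, 0, 2, 3, 4, 5, 6, 7, 8], [0, 1, 2, 4, 3, 5, 6, 7, 8], 152),
  (108, -1, [1, 0, 2, 3, 4, 5, 6, 7, 8], [0, 1, 2, 4, 3, 5, 6, 7, 8], 145),
  (110, 1, [0, 1, 2, 3, 4, 5, 6, 7, 8], [0, 1, 2, 3, 4, 5, 6, 7, 8], 110),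
  (145, 1, [0, 1, 2, 3, 4, 5, 6, 7, 8], [0, 1, 2, 3, 4, 5, 6, 7, 8], 145),
  (152, 1, [0, 1, 2, 3, 4, 5, 6, 7, 8], [0, 1, 2, 3, 4, 5, 6, 7, 8], 152),
  (165, -1, [0, 2, 1, 3, 4, 5, 6, 8, 7], [0, 1, 2, 3, 5, 4, 6, 8, 7], 152)]
def pref : List ℕ := []

end Pool.Agent.Helper683.K9
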