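import Pool.Agent.Helper683.K9.Tables

set_option maxRecDepth 1000000
set_option maxHeartbeats 4000000

namespace Pool.Agent.Helper683.K9

def hT' (i : ℕ) : ℕ := Nat.land (Nat.shiftRight hT (Nat.mul 32 i)) 4294967295

theorem hash_tab : ∀ i < hM, (hT' i) % hM = i → hT' i ∈ form5 := by decide +kernel

theorem mem_form5 {x : ℕ} (h : hash5 x = 1) : x ∈ form5 := by
  unfold hash5 at h
  cases h1 : Nat.beq (Nat.land (Nat.shiftRight hT (Nat.mul 32 (Nat.mod x hM))) 4294967295) x
  · rw [h1, cond_false] at h; exact absurd h (by decide)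
  · have e : hT' (x % hM) = x := Nat.eq_of_beq_eq_true h1
    have := hash_tab (x % hM) (Nat.mod_lt _ (by decide)) (by rw [e])
    rwa [e] at this

def digs : ℕ → ℕ → List ℕ
  | 0, _ => []
  | n + 1, x => (Nat.mod x 8) :: digs n (Nat.div x 8)

def ones : ℕ := 153391689

def fchk : Bool :=
  form5.all fun a => form5.all fun b =>
    (!(Nat.beq (hash5 (a + ones - b)) 1)) || form5.all fun c =>
      (!(Nat.beq (hash5 (a + c - ones)) 1)) || ((!(Nat.beq (hash5 (c + ones - b)) 1)) ||
        (!(Nat.beq (andm (digs 10 a ++ (digs 10 b ++ (digs 10 c ++ digs 10 (a + c - b)))) tF bF) 0)))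

theorem fchk_true : fchk = true := by decide +kernel

end Pool.Agent.Helper683.K9
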